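import Mathlib

/-!
# Weighted composition operators on `C^∞(Ω, 𝕜)`: definitions and first properties
-/

set_option autoImplicit false

namespace Pool.Agent.Q194.WCO

open Set Topology Filter
open scoped ContDiff

/-- `ℝ^d`. -/
abbrev E (d : ℕ) : Type := EuclideanSpace ℝ (Fin d)

/-- The partial derivative `∂_{i 0} ... ∂_{i (k-1)} f (x)` of order `k`. -/
noncomputable def pd {d : ℕ} {𝕜 : Type} [RCLike 𝕜] {k : ℕ} (i : Fin k → Fin d) (f : E d → 𝕜)
    (x : E d) : 𝕜 :=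
  iteratedFDeriv ℝ k f x fun j => EuclideanSpace.single (i j) (1 : ℝ)

/-- The space `C^∞(Ω, 𝕜)`; a function on `Ω` is represented by its extension by `0`. -/
structure CInf {d : ℕ} (Ω : Set (E d)) (𝕜 : Type) [RCLike 𝕜] where
  /-- the function, extended by `0` outside `Ω` -/
  toFun : E d → 𝕜
  smooth : ContDiffOn ℝ ∞ toFun Ω
  zero_off : ∀ x ∉ Ω, toFun x = 0

variable {d : ℕ} {Ω : Set (E d)} {𝕜 : Type} [RCLike 𝕜]

/-- `‖g - f‖_{L,n} < ε`: all partial derivatives of `g - f` of order at most `n` are smaller than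
`ε` on `L`. -/
def Close (L : Set (E d)) (n : ℕ) (ε : ℝ) (f g : CInf Ω 𝕜) : Prop :=
  ∀ x ∈ L, ∀ k ≤ n, ∀ i : Fin k → Fin d, ‖pd i (fun y => g.toFun y - f.toFun y) x‖ < ε

/-- The Fréchet topology of `C^∞(Ω, 𝕜)`, given by the seminorms `‖f‖_{L,n}`, `L ⊆ Ω` compact. -/
instance : TopologicalSpace (CInf Ω 𝕜) where
  IsOpen U := ∀ f ∈ U, ∃ L ⊆ Ω, IsCompact L ∧ ∃ n : ℕ, ∃ ε : ℝ, 0 < ε ∧ ∀ g, Close L n ε f g → g ∈ U
  isOpen_univ := fun _ _ => ⟨∅, empty_subset _, isCompact_empty, 0, 1, one_pos, fun _ _ => mem_univ _⟩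
  isOpen_inter := by
    rintro U V hU hV f ⟨hfU, hfV⟩
    obtain ⟨L₁, h₁, c₁, n₁, ε₁, e₁, H₁⟩ := hU f hfU
    obtain ⟨L₂, h₂, c₂, n₂, ε₂, e₂, H₂⟩ := hV f hfV
    refine ⟨L₁ ∪ L₂, union_subset h₁ h₂, c₁.union c₂, max n₁ n₂, min ε₁ ε₂, lt_min e₁ e₂, ?_⟩
    intro g hg
    exact ⟨H₁ g fun x hx k hk i =>
        (hg x (Or.inl hx) k (hk.trans (le_max_left _ _)) i).trans_le (min_le_left _ _),
      H₂ g fun x hx k hk i =>
        (hg x (Or.inr hx) k (hk.trans (le_max_right _ _)) i).trans_le (min_le_right _ _)⟩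
  isOpen_sUnion := by
    rintro S hS f ⟨U, hU, hfU⟩
    obtain ⟨L, h, c, n, ε, e, H⟩ := hS U hU f hfU
    exact ⟨L, h, c, n, ε, e, fun g hg => ⟨U, hU, H g hg⟩⟩

/-- The weighted composition operator `f ↦ w · (f ∘ ψ)` on `C^∞(Ω, 𝕜)`. -/
noncomputable def op (w : E d → 𝕜) (ψ : E d → E d) (hw : ContDiffOn ℝ ∞ w Ω)
    (hψ : ContDiffOn ℝ ∞ ψ Ω) (hm : MapsTo ψ Ω Ω) (f : CInf Ω 𝕜) : CInf Ω 𝕜 where
  toFun := Ω.indicator fun x => w x * f.toFun (ψ x)
  smooth := (hw.mul (f.smooth.comp hψ hm)).congr fun x hx => by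
    rw [indicator_of_mem hx]; rfl
  zero_off := fun x hx => indicator_of_notMem hx _

/-- Topological transitivity. -/
def IsTransitive {X : Type} [TopologicalSpace X] (T : X → X) : Prop :=
  ∀ U V : Set X, IsOpen U → U.Nonempty → IsOpen V → V.Nonempty → ∃ n : ℕ, (T^[n] '' U ∩ V).Nonempty

/-- Mixing. -/
def IsMixing {X : Type} [TopologicalSpace X] (T : X → X) : Prop :=
  ∀ U V : Set X, IsOpen U → U.Nonempty → IsOpen V → V.Nonempty →
    ∃ N : ℕ, ∀ n ≥ N, (T^[n] '' U ∩ V).Nonempty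

/-- Chaos (in the sense of Devaney, for operators): transitivity and density of the periodic
points. -/
def IsChaotic {X : Type} [TopologicalSpace X] (T : X → X) : Prop :=
  IsTransitive T ∧ Dense {x : X | ∃ n : ℕ, 1 ≤ n ∧ T^[n] x = x}

/-! ## Elementary facts -/

theorem isOpen_iff {U : Set (CInf Ω 𝕜)} : IsOpen U ↔ ∀ f ∈ U, ∃ L ⊆ Ω, IsCompact L ∧
    ∃ n : ℕ, ∃ ε : ℝ, 0 < ε ∧ ∀ g, Close L n ε f g → g ∈ U := Iff.rfl

/-- Restriction of a smooth function to `Ω`. -/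
noncomputable def mk' (F : E d → 𝕜) (hF : ContDiffOn ℝ ∞ F Ω) : CInf Ω 𝕜 where
  toFun := Ω.indicator F
  smooth := hF.congr fun x hx => by rw [indicator_of_mem hx]
  zero_off := fun x hx => indicator_of_notMem hx _

theorem mk'_apply (F : E d → 𝕜) (hF : ContDiffOn ℝ ∞ F Ω) {x : E d} (hx : x ∈ Ω) :
    (mk' F hF).toFun x = F x := indicator_of_mem hx _

theorem Close.value {L : Set (E d)} {n : ℕ} {ε : ℝ} {f g : CInf Ω 𝕜} (h : Close L n ε f g)
    {x : E d} (hx : x ∈ L) : ‖g.toFun x - f.toFun x‖ < ε := by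
  have := h x hx 0 (Nat.zero_le _) (fun j => j.elim0)
  simpa [pd] using this

theorem diffAt (hΩ : IsOpen Ω) (f : CInf Ω 𝕜) {x : E d} (hx : x ∈ Ω) :
    DifferentiableAt ℝ f.toFun x :=
  ((f.smooth.contDiffAt (hΩ.mem_nhds hx)).differentiableAt (by simp))

theorem Close.deriv (hΩ : IsOpen Ω) {L : Set (E d)} {n : ℕ} {ε : ℝ} {f g : CInf Ω 𝕜}
    (h : Close L n ε f g) (hn : 1 ≤ n) {x : E d} (hx : x ∈ L) (hxΩ : x ∈ Ω) (j : Fin d) :
    ‖fderiv ℝ g.toFun x (EuclideanSpace.single j 1) -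
      fderiv ℝ f.toFun x (EuclideanSpace.single j 1)‖ < ε := by
  have := h x hx 1 hn (fun _ => j)
  rw [pd, iteratedFDeriv_one_apply, fderiv_fun_sub (diffAt hΩ g hxΩ) (diffAt hΩ f hxΩ)] at this
  simpa using this

theorem close_of_eqOn {L : Set (E d)} {f g : CInf Ω 𝕜} {O : Set (E d)} (hO : IsOpen O)
    (hLO : L ⊆ O) (h : ∀ u ∈ O, g.toFun u = f.toFun u) (n : ℕ) {ε : ℝ} (hε : 0 < ε) :
    Close L n ε f g := by
  intro x hx k _ i
  have h1 : (fun y => g.toFun y - f.toFun y) =ᶠ[𝓝 x] fun _ => (0 : 𝕜) := by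
    filter_upwards [hO.mem_nhds (hLO hx)] with u hu
    rw [h u hu, sub_self]
  have h2 : iteratedFDeriv ℝ k (fun y => g.toFun y - f.toFun y) x = 0 := by
    rw [(h1.iteratedFDeriv ℝ k).eq_of_nhds]
    simp
  simp [pd, h2, hε]

/-- Evaluation is continuous. -/
theorem continuous_eval {x : E d} (hx : x ∈ Ω) :
    Continuous fun f : CInf Ω 𝕜 => f.toFun x := by
  rw [continuous_def]
  intro s hs
  rw [isOpen_iff]
  intro f hf
  obtain ⟨ε, hε, hb⟩ := Metric.isOpen_iff.1 hs (f.toFun x) hf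
  refine ⟨{x}, by simpa using hx, isCompact_singleton, 0, ε, hε, fun g hg => hb ?_⟩
  rw [Metric.mem_ball, dist_eq_norm]
  exact hg.value rfl

/-- Evaluation of a directional derivative is continuous. -/
theorem continuous_deriv (hΩ : IsOpen Ω) {x : E d} (hx : x ∈ Ω) (v : E d) :
    Continuous fun f : CInf Ω 𝕜 => fderiv ℝ f.toFun x v := by
  have key : ∀ j : Fin d,
      Continuous fun f : CInf Ω 𝕜 => fderiv ℝ f.toFun x (EuclideanSpace.single j 1) := by
    intro j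
    rw [continuous_def]
    intro s hs
    rw [isOpen_iff]
    intro f hf
    obtain ⟨ε, hε, hb⟩ := Metric.isOpen_iff.1 hs _ hf
    refine ⟨{x}, by simpa using hx, isCompact_singleton, 1, ε, hε, fun g hg => hb ?_⟩
    rw [Metric.mem_ball, dist_eq_norm]
    exact hg.deriv hΩ le_rfl rfl hx j
  have hv : v = ∑ j : Fin d, v j • EuclideanSpace.single j (1 : ℝ) := by
    ext i
    simp [Finset.sum_apply, Pi.single_apply]
  have h2 : (fun f : CInf Ω 𝕜 => fderiv ℝ f.toFun x v) = fun f : CInf Ω 𝕜 =>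
      ∑ j : Fin d, v j • fderiv ℝ f.toFun x (EuclideanSpace.single j 1) := by
    funext f
    conv_lhs => rw [hv]
    rw [map_sum]
    simp only [map_smul]
  rw [h2]
  exact continuous_finsetSum _ fun j _ => (key j).const_smul _

/-! ## Iterates -/

/-- The weights of the iterates. -/
noncomputable def W (w : E d → 𝕜) (ψ : E d → E d) : ℕ → E d → 𝕜
  | 0, _ => 1
  | n + 1, x => w x * W w ψ n (ψ x)

section iter

variable {w : E d → 𝕜} {ψ : E d → E d} (hw : ContDiffOn ℝ ∞ w Ω) (hψ : ContDiffOn ℝ ∞ ψ Ω)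
  (hm : MapsTo ψ Ω Ω)

include hm in
theorem mapsTo_iter (n : ℕ) : MapsTo (ψ^[n]) Ω Ω := hm.iterate n

include hψ hm in
theorem smooth_iter (n : ℕ) : ContDiffOn ℝ ∞ (ψ^[n]) Ω := by
  induction n with
  | zero => exact contDiffOn_id
  | succ n ih =>
    rw [Function.iterate_succ]
    exact ih.comp hψ hm

include hw hψ hm in
theorem smooth_W (n : ℕ) : ContDiffOn ℝ ∞ (W w ψ n) Ω := by
  induction n with
  | zero => exact contDiffOn_const
  | succ n ih => exact hw.mul (ih.comp hψ hm)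

include hm in
theorem W_ne (h0 : ∀ x ∈ Ω, w x ≠ 0) (n : ℕ) : ∀ x ∈ Ω, W w ψ n x ≠ 0 := by
  induction n with
  | zero => intro x _; exact one_ne_zero
  | succ n ih => intro x hx; exact mul_ne_zero (h0 x hx) (ih _ (hm hx))

theorem W_add (n k : ℕ) (x : E d) : W w ψ (n + k) x = W w ψ n x * W w ψ k (ψ^[n] x) := by
  induction n generalizing x with
  | zero => simp [W]
  | succ n ih =>
    have e : n + 1 + k = (n + k) + 1 := by omega
    rw [e]
    change w x * W w ψ (n + k) (ψ x) = w x * W w ψ n (ψ x) * W w ψ k (ψ^[n + 1] x)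
    rw [ih, Function.iterate_succ_apply, mul_assoc]

theorem iter_apply (n : ℕ) (f : CInf Ω 𝕜) {x : E d} (hx : x ∈ Ω) :
    ((op w ψ hw hψ hm)^[n] f).toFun x = W w ψ n x * f.toFun (ψ^[n] x) := by
  induction n generalizing x with
  | zero => simp [W]
  | succ n ih =>
    rw [Function.iterate_succ_apply']
    change Ω.indicator (fun y => w y * ((op w ψ hw hψ hm)^[n] f).toFun (ψ y)) x = _
    rw [indicator_of_mem hx]
    change w x * ((op w ψ hw hψ hm)^[n] f).toFun (ψ x) = w x * W w ψ n (ψ x) * f.toFun (ψ^[n + 1] x)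
    rw [ih (hm hx), Function.iterate_succ_apply, mul_assoc]

theorem iter_off (n : ℕ) (f : CInf Ω 𝕜) {x : E d} (hx : x ∉ Ω) :
    ((op w ψ hw hψ hm)^[n] f).toFun x = 0 := ((op w ψ hw hψ hm)^[n] f).zero_off x hx

theorem contOn (f : CInf Ω 𝕜) : ContinuousOn f.toFun Ω := f.smooth.continuousOn

/-- The uniform condition on `T^n f` on a compact set is open. -/
theorem isOpen_near (n : ℕ) {K : Set (E d)} (hK : IsCompact K) (hKΩ : K ⊆ Ω) {c : E d → 𝕜}
    (hc : ContinuousOn c K) (r : ℝ) :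
    IsOpen {f : CInf Ω 𝕜 | ∀ x ∈ K, ‖((op w ψ hw hψ hm)^[n] f).toFun x - c x‖ < r} := by
  rw [isOpen_iff]
  intro f hf
  rcases K.eq_empty_or_nonempty with hKe | hKn
  · exact ⟨∅, empty_subset _, isCompact_empty, 0, 1, one_pos, fun g _ => by
      intro x hx
      rw [hKe] at hx
      exact hx.elim⟩
  have h1 : ContinuousOn (fun x => ‖((op w ψ hw hψ hm)^[n] f).toFun x - c x‖) K :=
    (((contOn _).mono hKΩ).sub hc).norm
  obtain ⟨x₀, hx₀, hmax⟩ := hK.exists_isMaxOn hKn h1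
  have h2 : ContinuousOn (fun x => ‖W w ψ n x‖) K :=
    (((smooth_W hw hψ hm n).continuousOn).mono hKΩ).norm
  obtain ⟨x₁, hx₁, hmax1⟩ := hK.exists_isMaxOn hKn h2
  set m := r - ‖((op w ψ hw hψ hm)^[n] f).toFun x₀ - c x₀‖ with hmdef
  have hmpos : 0 < m := by have := hf x₀ hx₀; rw [hmdef]; linarith
  set M := ‖W w ψ n x₁‖ + 1 with hM
  have hMpos : 0 < M := by positivity
  refine ⟨ψ^[n] '' K, ?_, hK.image_of_continuousOn (((smooth_iter hψ hm n).continuousOn).mono hKΩ),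
    0, m / M, div_pos hmpos hMpos, ?_⟩
  · rintro _ ⟨u, hu, rfl⟩
    exact mapsTo_iter hm n (hKΩ hu)
  · intro g hg x hx
    have e1 := hg.value (mem_image_of_mem _ hx)
    have e2 : ‖W w ψ n x‖ ≤ M := (hmax1 hx).trans (by rw [hM]; linarith)
    have e3 : ‖((op w ψ hw hψ hm)^[n] f).toFun x - c x‖ ≤ r - m := by
      have := hmax hx
      simp only [mem_ofPred_eq] at this
      rw [hmdef]; linarith
    rw [iter_apply _ _ _ _ _ (hKΩ hx)] at e3 ⊢
    have e4 : W w ψ n x * g.toFun (ψ^[n] x) - c x =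
        (W w ψ n x * f.toFun (ψ^[n] x) - c x) + W w ψ n x * (g.toFun (ψ^[n] x) - f.toFun (ψ^[n] x)) := by
      ring
    have e5 : ‖W w ψ n x * (g.toFun (ψ^[n] x) - f.toFun (ψ^[n] x))‖ < m := by
      rw [norm_mul]
      calc ‖W w ψ n x‖ * ‖g.toFun (ψ^[n] x) - f.toFun (ψ^[n] x)‖
          ≤ M * ‖g.toFun (ψ^[n] x) - f.toFun (ψ^[n] x)‖ := by gcongr
        _ < M * (m / M) := by gcongr
        _ = m := by field_simp
    calc ‖W w ψ n x * g.toFun (ψ^[n] x) - c x‖ ≤ _ := by rw [e4]; exact norm_add_le _ _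
      _ < (r - m) + m := add_lt_add_of_le_of_lt e3 e5
      _ = r := by ring

end iter

end Pool.Agent.Q194.WCO
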