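import Pool.Agent.Q194.WCO.Mix

/-!
# Separability, exhaustion, and hypercyclicity for run-away symbols
-/

set_option autoImplicit false

namespace Pool.Agent.Q194.WCO

open Set Topology Filter
open scoped ContDiff

variable {d : ℕ} {Ω : Set (E d)} {𝕜 : Type} [RCLike 𝕜]

/-- Compact exhaustion of an open set. -/
theorem exists_exhaustion (hΩ : IsOpen Ω) : ∃ K : ℕ → Set (E d), (∀ j, IsCompact (K j)) ∧
    (∀ j, K j ⊆ Ω) ∧ Monotone K ∧ ∀ L : Set (E d), IsCompact L → L ⊆ Ω → ∃ J, ∀ j ≥ J, L ⊆ K j := by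
  refine ⟨fun j => Metric.closedBall 0 (j : ℝ) ∩
    {x | ((j : ENNReal) + 1)⁻¹ ≤ Metric.infEDist x Ωᶜ}, ?_, ?_, ?_, ?_⟩
  · intro j
    exact (isCompact_closedBall _ _).inter_right
      (isClosed_le continuous_const Metric.continuous_infEDist)
  · rintro j x ⟨_, hx⟩
    by_contra hxΩ
    have h0 : Metric.infEDist x Ωᶜ = 0 := Metric.infEDist_zero_of_mem hxΩ
    rw [mem_ofPred_eq, h0, nonpos_iff_eq_zero, ENNReal.inv_eq_zero] at hx
    exact absurd hx (by finiteness)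
  · intro i j hij
    refine inter_subset_inter (Metric.closedBall_subset_closedBall (by exact_mod_cast hij)) ?_
    intro x hx
    have hx' : ((i : ENNReal) + 1)⁻¹ ≤ Metric.infEDist x Ωᶜ := hx
    have h1 : ((j : ENNReal) + 1)⁻¹ ≤ ((i : ENNReal) + 1)⁻¹ := ENNReal.inv_le_inv.2 (by gcongr)
    exact h1.trans hx'
  · intro L hL hLΩ
    obtain ⟨R, hR⟩ := hL.isBounded.subset_closedBall 0
    obtain ⟨r, hr, hrL⟩ := Metric.exists_pos_forall_lt_edist hL hΩ.isClosed_compl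
      (Set.disjoint_left.2 fun z hz hz' => hz' (hLΩ hz))
    obtain ⟨J, hJ⟩ := exists_nat_gt (max R (r : ℝ)⁻¹)
    refine ⟨J, fun j hj => ?_⟩
    have hj' : (J : ℝ) ≤ j := by exact_mod_cast hj
    intro x hx
    refine ⟨Metric.closedBall_subset_closedBall
      (((le_max_left _ _).trans hJ.le).trans hj') (hR hx), ?_⟩
    change ((j : ENNReal) + 1)⁻¹ ≤ Metric.infEDist x Ωᶜ
    rw [Metric.le_infEDist]
    intro y hy
    refine le_trans ?_ (hrL x hx y hy).le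
    have h1 : (r : ℝ)⁻¹ ≤ (j : ℝ) + 1 := by
      have := (le_max_right R (r : ℝ)⁻¹).trans hJ.le
      linarith
    have h2 : (r : NNReal)⁻¹ ≤ (j : NNReal) + 1 := by exact_mod_cast h1
    have h3 : ((r⁻¹ : NNReal) : ENNReal) ≤ (j : ENNReal) + 1 := by exact_mod_cast h2
    rw [ENNReal.coe_inv hr.ne'] at h3
    exact ENNReal.inv_le_iff_inv_le.1 h3

theorem contOn_iter (hΩ : IsOpen Ω) (f : CInf Ω 𝕜) (k : ℕ) :
    ContinuousOn (iteratedFDeriv ℝ k f.toFun) Ω := by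
  have h1 := f.smooth.continuousOn_iteratedFDerivWithin (m := k)
    (by exact_mod_cast le_top) hΩ.uniqueDiffOn
  exact h1.congr fun x hx => (iteratedFDerivWithin_of_isOpen k hΩ hx).symm

theorem pd_le {k : ℕ} (i : Fin k → Fin d) (f : E d → 𝕜) (x : E d) :
    ‖pd i f x‖ ≤ ‖iteratedFDeriv ℝ k f x‖ := by
  refine (ContinuousMultilinearMap.le_opNorm _ _).trans ?_
  simp

theorem finiteDimensional_mult (𝕜 : Type) [RCLike 𝕜] (d k : ℕ) :
    FiniteDimensional ℝ (E d [×k]→L[ℝ] 𝕜) := by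
  have : FiniteDimensional ℝ (MultilinearMap ℝ (fun _ : Fin k => E d) 𝕜) :=
    Module.Finite.multilinearMap
  have h2 : Function.Injective (ContinuousMultilinearMap.toMultilinearMapLinear :
      ContinuousMultilinearMap ℝ (fun _ : Fin k => E d) 𝕜 →ₗ[ℝ]
        MultilinearMap ℝ (fun _ : Fin k => E d) 𝕜) :=
    ContinuousMultilinearMap.toMultilinearMap_injective
  exact Module.Finite.of_injective _ h2

/-- The space `C^∞(Ω, 𝕜)` has a dense sequence. -/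
theorem exists_dense_seq (hΩ : IsOpen Ω) : ∃ D : ℕ → CInf Ω 𝕜, ∀ (f : CInf Ω 𝕜) (L : Set (E d)),
    IsCompact L → L ⊆ Ω → ∀ (n : ℕ) (ε : ℝ), 0 < ε → ∃ i, Close L n ε f (D i) := by
  obtain ⟨K, hK, hKΩ, _, hKL⟩ := exists_exhaustion hΩ
  have hcs : ∀ j, CompactSpace (K j) := fun j => isCompact_iff_compactSpace.1 (hK j)
  -- the restriction maps
  let Φ : ∀ j : ℕ, CInf Ω 𝕜 → (∀ k : Fin (j + 1), C(K j, E d [×(k : ℕ)]→L[ℝ] 𝕜)) := fun j f k =>
    ⟨fun x => iteratedFDeriv ℝ k f.toFun x, ((contOn_iter hΩ f k).mono (hKΩ j)).domRestrict⟩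
  have hsc : ∀ k : ℕ, SecondCountableTopology (E d [×k]→L[ℝ] 𝕜) := by
    intro k
    have h1 := finiteDimensional_mult 𝕜 d k
    have h2 : ProperSpace (E d [×k]→L[ℝ] 𝕜) := FiniteDimensional.proper ℝ _
    infer_instance
  have hdense : ∀ j, ∃ s : ℕ → CInf Ω 𝕜, ∀ f ε, 0 < ε → ∃ i, dist (Φ j f) (Φ j (s i)) < ε := by
    intro j
    have : Nonempty (range (Φ j)) := ⟨⟨_, mem_range_self (mk' (fun _ => 0) contDiffOn_const)⟩⟩
    let u := TopologicalSpace.denseSeq (range (Φ j))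
    have hu : DenseRange u := TopologicalSpace.denseRange_denseSeq _
    have hch : ∀ i, ∃ f, Φ j f = u i := fun i => (u i).2
    choose s hs using hch
    refine ⟨s, fun f ε hε => ?_⟩
    obtain ⟨i, hi⟩ := hu.exists_dist_lt (⟨Φ j f, mem_range_self f⟩ : range (Φ j)) hε
    refine ⟨i, ?_⟩
    rw [hs i]
    exact hi
  choose s hs using hdense
  refine ⟨fun p => s (Nat.unpair p).1 (Nat.unpair p).2, fun f L hL hLΩ n ε hε => ?_⟩
  obtain ⟨J, hJ⟩ := hKL L hL hLΩ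
  set j := max J n with hj
  obtain ⟨i, hi⟩ := hs j f ε hε
  refine ⟨Nat.pair j i, ?_⟩
  simp only [Nat.unpair_pair]
  intro x hx k hk a
  have hxK : x ∈ K j := hJ j (le_max_left _ _) hx
  have hxΩ := hKΩ j hxK
  have hkj : k < j + 1 := by have := le_max_right J n; omega
  refine (pd_le a _ x).trans_lt ?_
  have e1 : iteratedFDeriv ℝ k (fun y => (s j i).toFun y - f.toFun y) x =
      iteratedFDeriv ℝ k (s j i).toFun x - iteratedFDeriv ℝ k f.toFun x := by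
    have h1 : ContDiffAt ℝ k (s j i).toFun x :=
      ((s j i).smooth.contDiffAt (hΩ.mem_nhds hxΩ)).of_le (by exact_mod_cast le_top)
    have h2 : ContDiffAt ℝ k f.toFun x :=
      (f.smooth.contDiffAt (hΩ.mem_nhds hxΩ)).of_le (by exact_mod_cast le_top)
    exact iteratedFDeriv_sub_apply h1 h2
  change ‖iteratedFDeriv ℝ k (fun y => (s j i).toFun y - f.toFun y) x‖ < ε
  rw [e1, ← dist_eq_norm, dist_comm]
  calc dist (iteratedFDeriv ℝ k f.toFun x) (iteratedFDeriv ℝ k (s j i).toFun x)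
      = dist (Φ j f ⟨k, hkj⟩ ⟨x, hxK⟩) (Φ j (s j i) ⟨k, hkj⟩ ⟨x, hxK⟩) := rfl
    _ ≤ dist (Φ j f ⟨k, hkj⟩) (Φ j (s j i) ⟨k, hkj⟩) := ContinuousMap.dist_apply_le_dist _
    _ ≤ dist (Φ j f) (Φ j (s j i)) := dist_le_pi_dist (Φ j f) (Φ j (s j i)) ⟨k, hkj⟩
    _ < ε := hi

variable {w : E d → 𝕜} {ψ : E d → E d} (hw : ContDiffOn ℝ ∞ w Ω) (hψ : ContDiffOn ℝ ∞ ψ Ω)
  (hm : MapsTo ψ Ω Ω)

/-- **Theorem.** A weighted composition operator whose weight has no zeros and whose symbol is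
injective, a local diffeomorphism and run-away is hypercyclic. -/
theorem hypercyclic (hΩ : IsOpen Ω) (hw0 : ∀ x ∈ Ω, w x ≠ 0) (hinj : InjOn ψ Ω)
    (hdet : ∀ x ∈ Ω, ∃ A : E d ≃L[ℝ] E d, HasFDerivAt ψ (A : E d →L[ℝ] E d) x)
    (hrun : ∀ K : Set (E d), IsCompact K → K ⊆ Ω → ∃ n : ℕ, Disjoint (ψ^[n] '' K) K) :
    ∃ g : CInf Ω 𝕜, Dense {h : CInf Ω 𝕜 | ∃ n : ℕ, (op w ψ hw hψ hm)^[n] g = h} := by
  set T := op w ψ hw hψ hm with hT
  obtain ⟨K, hK, hKΩ, hKmono, hKL⟩ := exists_exhaustion hΩ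
  obtain ⟨D, hD⟩ := exists_dense_seq (𝕜 := 𝕜) hΩ
  -- one step
  have hstep : ∀ (j : ℕ) (s : {p : CInf Ω 𝕜 × Set (E d) // IsCompact p.2 ∧ p.2 ⊆ Ω}),
      ∃ (s' : {p : CInf Ω 𝕜 × Set (E d) // IsCompact p.2 ∧ p.2 ⊆ Ω}) (N : ℕ),
        s.1.2 ⊆ s'.1.2 ∧ K j ⊆ s'.1.2 ∧ ψ^[N] '' K j ⊆ s'.1.2 ∧
        (∀ u ∈ s.1.2, s'.1.1.toFun u = s.1.1.toFun u) ∧
        ∀ u ∈ K j, (T^[N] s'.1.1).toFun u = (D (Nat.unpair j).1).toFun u := by
    rintro j ⟨⟨f, L⟩, hLc, hLΩ⟩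
    obtain ⟨N, hN⟩ := hrun (L ∪ K j) (hLc.union (hK j)) (union_subset hLΩ (hKΩ j))
    have hdis : Disjoint (ψ^[N] '' K j) L :=
      hN.mono (image_mono subset_union_right) subset_union_left
    obtain ⟨h, ⟨O₁, _, hs₁, he₁⟩, O₂, _, hs₂, _, he₂⟩ :=
      glue hw hψ hm hΩ hw0 hinj hdet N hLc (hK j) hLΩ (hKΩ j) hdis f (D (Nat.unpair j).1)
    refine ⟨⟨⟨h, L ∪ K j ∪ ψ^[N] '' K j⟩, (hLc.union (hK j)).union ((hK j).image_of_continuousOn
      (((smooth_iter hψ hm N).continuousOn).mono (hKΩ j))), union_subset (union_subset hLΩ (hKΩ j)) ?_⟩,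
      N, ?_, ?_, subset_union_right, fun u hu => he₁ u (hs₁ hu), fun u hu => he₂ u (hs₂ hu)⟩
    · rintro _ ⟨u, hu, rfl⟩
      exact mapsTo_iter hm N (hKΩ j hu)
    · exact subset_union_left.trans subset_union_left
    · exact subset_union_right.trans subset_union_left
  choose nxt N hs1 hs2 hs3 hs4 hs5 using hstep
  let S : ℕ → {p : CInf Ω 𝕜 × Set (E d) // IsCompact p.2 ∧ p.2 ⊆ Ω} := fun n =>
    Nat.rec ⟨⟨mk' (fun _ => 0) contDiffOn_const, ∅⟩, isCompact_empty, empty_subset _⟩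
      (fun j s => nxt j s) n
  have hSs : ∀ j, S (j + 1) = nxt j (S j) := fun j => rfl
  have hLmono : Monotone fun j => (S j).1.2 := monotone_nat_of_le_succ fun j => by
    change (S j).1.2 ⊆ (S (j + 1)).1.2
    rw [hSs]; exact hs1 j (S j)
  have hstab : ∀ j i, j ≤ i → ∀ u ∈ (S j).1.2, (S i).1.1.toFun u = (S j).1.1.toFun u := by
    intro j i hji
    induction i, hji using Nat.le_induction with
    | base => intro u _; rfl
    | succ i hji ih =>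
      intro u hu
      rw [hSs, hs4 i (S i) u (hLmono hji hu)]
      exact ih u hu
  have hKL' : ∀ j, K j ⊆ (S (j + 1)).1.2 := fun j => by rw [hSs]; exact hs2 j (S j)
  have hcov : ∀ u ∈ Ω, ∃ j, u ∈ (S j).1.2 := by
    intro u hu
    obtain ⟨J, hJ⟩ := hKL {u} isCompact_singleton (by simpa using hu)
    exact ⟨J + 1, hKL' J (hJ J le_rfl rfl)⟩
  classical
  -- the limit function
  let G : E d → 𝕜 := fun u => if h : ∃ j, u ∈ (S j).1.2 then (S (Nat.find h)).1.1.toFun u else 0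
  have hG : ∀ j, ∀ u ∈ (S j).1.2, G u = (S j).1.1.toFun u := by
    intro j u hu
    have h : ∃ j, u ∈ (S j).1.2 := ⟨j, hu⟩
    have e1 : G u = (S (Nat.find h)).1.1.toFun u := dif_pos h
    rw [e1]
    exact (hstab _ _ (Nat.find_le hu) u (Nat.find_spec h)).symm
  have hGs : ContDiffOn ℝ ∞ G Ω := by
    intro x hx
    refine ContDiffAt.contDiffWithinAt ?_
    obtain ⟨ρ, hρ, hball⟩ := Metric.nhds_basis_closedBall.mem_iff.1 (hΩ.mem_nhds hx)
    obtain ⟨J, hJ⟩ := hKL _ (isCompact_closedBall x ρ) hball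
    have h1 : ContDiffAt ℝ ∞ (S (J + 1)).1.1.toFun x :=
      (S (J + 1)).1.1.smooth.contDiffAt (hΩ.mem_nhds hx)
    refine h1.congr_of_eventuallyEq ?_
    filter_upwards [Metric.closedBall_mem_nhds x hρ] with u hu
    exact hG (J + 1) u (hKL' J (hJ J le_rfl hu))
  let g : CInf Ω 𝕜 := mk' G hGs
  have hg : ∀ j, ∀ u ∈ (S j).1.2, g.toFun u = (S j).1.1.toFun u := fun j u hu => by
    rw [← hG j u hu]
    exact mk'_apply _ _ ((S j).2.2 hu)
  refine ⟨g, ?_⟩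
  rw [dense_iff_inter_open]
  rintro U hU ⟨f, hf⟩
  obtain ⟨L, hLΩ, hLc, n, ε, hε, H⟩ := isOpen_iff.1 hU f hf
  obtain ⟨i, hi⟩ := hD f L hLc hLΩ n ε hε
  obtain ⟨L', hL'c, hLL', hL'Ω⟩ := exists_compact_between hLc hΩ hLΩ
  obtain ⟨J, hJ⟩ := hKL L' hL'c hL'Ω
  set j := Nat.pair i J with hj
  have hjJ : J ≤ j := Nat.right_le_pair i J
  have hunp : (Nat.unpair j).1 = i := by rw [hj, Nat.unpair_pair]
  refine ⟨T^[N j (S j)] g, H _ ?_, _, rfl⟩
  have heq : ∀ u ∈ interior L', (T^[N j (S j)] g).toFun u = (D i).toFun u := by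
    intro u hu
    have hu' : u ∈ K j := hJ j hjJ (interior_subset hu)
    have hc : ψ^[N j (S j)] u ∈ (S (j + 1)).1.2 := by
      rw [hSs]; exact hs3 j (S j) (mem_image_of_mem _ hu')
    have e1 := hs5 j (S j) u hu'
    rw [hunp, ← hSs] at e1
    rw [← e1, hT, iter_apply hw hψ hm _ _ (hKΩ j hu'), iter_apply hw hψ hm _ _ (hKΩ j hu'),
      hg (j + 1) _ hc]
  intro x hx k hk a
  have h1 : (fun y => (T^[N j (S j)] g).toFun y - f.toFun y) =ᶠ[𝓝 x]
      fun y => (D i).toFun y - f.toFun y := by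
    filter_upwards [isOpen_interior.mem_nhds (hLL' hx)] with u hu
    rw [heq u hu]
  have h2 := hi x hx k hk a
  rw [pd, (h1.iteratedFDeriv ℝ k).eq_of_nhds]
  exact h2

end Pool.Agent.Q194.WCO
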