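import Pool.Agent.Q194.WCO.Nec

/-!
# Dense periodic points and run-away imply strongly run-away
-/

set_option autoImplicit false

namespace Pool.Agent.Q194.WCO

open Set Topology Filter
open scoped ContDiff RealInnerProductSpace

/-- A continuous image of a connected set which meets `C` only in the open subset `O` of the closed
set `C`, and meets it, is contained in `O`. -/
theorem all_or_nothing {X : Type} [TopologicalSpace X] {B : Set X} (hB : IsPreconnected B)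
    {χ : X → X} (hχ : ContinuousOn χ B) {O C : Set X} (hO : IsOpen O) (hC : IsClosed C)
    (hOC : ∀ u ∈ B, χ u ∈ C → χ u ∈ O) (hsub : O ⊆ C) (h : ∃ u ∈ B, χ u ∈ C) :
    ∀ u ∈ B, χ u ∈ O := by
  by_contra hcon
  push Not at hcon
  obtain ⟨u, hu, huO⟩ := hcon
  obtain ⟨v, hv, hvC⟩ := h
  have huC : χ u ∉ C := fun h => huO (hOC u hu h)
  obtain ⟨z, _, hz1, hz2⟩ := (hB.image χ hχ) O Cᶜ hO hC.isOpen_compl (by
      rintro _ ⟨a, ha, rfl⟩
      by_cases h : χ a ∈ C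
      · exact Or.inl (hOC a ha h)
      · exact Or.inr h) ⟨_, mem_image_of_mem _ hv, hOC v hv hvC⟩ ⟨_, mem_image_of_mem _ hu, huC⟩
  exact hz2 (hsub hz1)

variable {d : ℕ} {Ω : Set (E d)} {𝕜 : Type} [RCLike 𝕜]
variable {w : E d → 𝕜} {ψ : E d → E d} (hw : ContDiffOn ℝ ∞ w Ω) (hψ : ContDiffOn ℝ ∞ ψ Ω)
  (hm : MapsTo ψ Ω Ω)

/-- Two periodic functions of a common period close to `1` and to `‖z - y‖² / η²`. -/
theorem exists_periodic (hper : Dense {f : CInf Ω 𝕜 | ∃ n : ℕ, 1 ≤ n ∧ (op w ψ hw hψ hm)^[n] f = f})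
    {K : Set (E d)} (hK : IsCompact K) (hKΩ : K ⊆ Ω) (y : E d) (η : ℝ) :
    ∃ (f₁ f₂ : CInf Ω 𝕜) (m : ℕ), 1 ≤ m ∧ (op w ψ hw hψ hm)^[m] f₁ = f₁ ∧
      (op w ψ hw hψ hm)^[m] f₂ = f₂ ∧ (∀ z ∈ K, ‖f₁.toFun z - 1‖ < 1 / 10) ∧
      ∀ z ∈ K, ‖f₂.toFun z - ((‖z - y‖ ^ 2 / η ^ 2 : ℝ) : 𝕜)‖ < 1 / 10 := by
  have hsm : ContDiff ℝ ∞ fun z : E d => ((‖z - y‖ ^ 2 / η ^ 2 : ℝ) : 𝕜) := by
    have h1 : ContDiff ℝ ∞ fun z : E d => ‖z - y‖ ^ 2 / η ^ 2 :=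
      ((contDiff_id.sub contDiff_const).norm_sq ℝ).div_const _
    exact (RCLike.ofRealCLM (K := 𝕜)).contDiff.comp h1
  obtain ⟨f₁, h1, m₁, hm1, hp1⟩ := hper.inter_open_nonempty _
    (isOpen_near hw hψ hm 0 hK hKΩ (c := fun _ => 1) continuousOn_const (1 / 10))
    ⟨mk' (fun _ => 1) contDiffOn_const, fun x hx => by simp [mk'_apply _ _ (hKΩ hx)]⟩
  obtain ⟨f₂, h2, m₂, hm2, hp2⟩ := hper.inter_open_nonempty _
    (isOpen_near hw hψ hm 0 hK hKΩ (c := fun z => ((‖z - y‖ ^ 2 / η ^ 2 : ℝ) : 𝕜))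
      hsm.continuous.continuousOn (1 / 10))
    ⟨mk' _ hsm.contDiffOn, fun x hx => by
      rw [Function.iterate_zero_apply, mk'_apply _ _ (hKΩ hx), sub_self, norm_zero]; norm_num⟩
  refine ⟨f₁, f₂, m₁ * m₂, Nat.mul_pos hm1 hm2, ?_, ?_, h1, h2⟩
  · exact Function.IsPeriodicPt.mul_const (show Function.IsPeriodicPt _ m₁ f₁ from hp1) m₂
  · exact Function.IsPeriodicPt.const_mul (show Function.IsPeriodicPt _ m₂ f₂ from hp2) m₁

/-- **Theorem.** If the weight has no zeros, the periodic points are dense and the symbol is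
run-away, then it is strongly run-away. -/
theorem strongly_runaway (hΩ : IsOpen Ω) (hw0 : ∀ x ∈ Ω, w x ≠ 0)
    (hper : Dense {f : CInf Ω 𝕜 | ∃ n : ℕ, 1 ≤ n ∧ (op w ψ hw hψ hm)^[n] f = f})
    (hrun : ∀ K : Set (E d), IsCompact K → K ⊆ Ω → ∃ n : ℕ, Disjoint (ψ^[n] '' K) K)
    {K : Set (E d)} (hK : IsCompact K) (hKΩ : K ⊆ Ω) :
    ∃ N : ℕ, ∀ n ≥ N, Disjoint (ψ^[n] '' K) K := by
  set T := op w ψ hw hψ hm with hTdef
  by_contra hcon
  push Not at hcon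
  -- an ultrafilter on the set of return times
  have hfreq : ∃ᶠ n in atTop, ¬ Disjoint (ψ^[n] '' K) K := by
    rw [frequently_atTop]
    intro N
    obtain ⟨n, hn, h⟩ := hcon N
    exact ⟨n, hn, h⟩
  have hne : (atTop ⊓ 𝓟 {n : ℕ | ¬ Disjoint (ψ^[n] '' K) K}).NeBot :=
    frequently_mem_iff_neBot.1 hfreq
  set 𝒰 : Ultrafilter ℕ := Ultrafilter.of (atTop ⊓ 𝓟 {n : ℕ | ¬ Disjoint (ψ^[n] '' K) K}) with h𝒰
  have hle := Ultrafilter.of_le (atTop ⊓ 𝓟 {n : ℕ | ¬ Disjoint (ψ^[n] '' K) K})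
  have htop : (𝒰 : Filter ℕ) ≤ atTop := hle.trans inf_le_left
  have hS : ∀ᶠ n in (𝒰 : Filter ℕ), ¬ Disjoint (ψ^[n] '' K) K :=
    (hle.trans inf_le_right) (mem_principal_self _)
  have hch : ∀ n : ℕ, ∃ x : E d, ¬ Disjoint (ψ^[n] '' K) K → x ∈ K ∧ ψ^[n] x ∈ K := by
    intro n
    by_cases h : Disjoint (ψ^[n] '' K) K
    · exact ⟨0, fun h' => (h' h).elim⟩
    · obtain ⟨_, ⟨x, hx, rfl⟩, hx'⟩ := Set.not_disjoint_iff.1 h
      exact ⟨x, fun _ => ⟨hx, hx'⟩⟩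
  choose xs hxs using hch
  have hx1 : ∀ᶠ n in (𝒰 : Filter ℕ), xs n ∈ K := hS.mono fun n hn => (hxs n hn).1
  have hx2 : ∀ᶠ n in (𝒰 : Filter ℕ), ψ^[n] (xs n) ∈ K := hS.mono fun n hn => (hxs n hn).2
  obtain ⟨x, hxK, hx⟩ := hK.ultrafilter_le_nhds (𝒰.map xs) (by
    rw [le_principal_iff]; exact hx1)
  obtain ⟨y, hyK, hy⟩ := hK.ultrafilter_le_nhds (𝒰.map fun n => ψ^[n] (xs n)) (by
    rw [le_principal_iff]; exact hx2)
  have htx : Tendsto xs 𝒰 (𝓝 x) := hx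
  have hty : Tendsto (fun n => ψ^[n] (xs n)) 𝒰 (𝓝 y) := hy
  have hxΩ := hKΩ hxK
  have hyΩ := hKΩ hyK
  -- the ball
  obtain ⟨η, hη, hball⟩ := Metric.nhds_basis_closedBall.mem_iff.1 (hΩ.mem_nhds hyΩ)
  set K₀ := Metric.closedBall y η with hK₀
  have hK₀c : IsCompact K₀ := isCompact_closedBall y η
  have hLc : IsCompact (K₀ ∪ {x}) := hK₀c.union isCompact_singleton
  have hLΩ : K₀ ∪ {x} ⊆ Ω := union_subset hball (by simpa using hxΩ)
  obtain ⟨f₁, f₂, m, hm1, hp1, hp2, ha1, ha2⟩ := exists_periodic hw hψ hm hper hLc hLΩ y η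
  rw [← hTdef] at hp1 hp2
  have hyK₀ : y ∈ K₀ := Metric.mem_closedBall_self hη.le
  -- the set `A`
  set A : Set (E d) := Metric.ball y η ∩ {z | z ∈ Ω ∧ ‖f₂.toFun z‖ < 1 / 2 * ‖f₁.toFun z‖} with hA
  have hlt_open : ∀ g₁ g₂ : CInf Ω 𝕜, IsOpen {z | z ∈ Ω ∧ ‖g₂.toFun z‖ < 1 / 2 * ‖g₁.toFun z‖} := by
    intro g₁ g₂
    have h1 : ContinuousOn (fun z => 1 / 2 * ‖g₁.toFun z‖ - ‖g₂.toFun z‖) Ω :=
      (continuousOn_const.mul (contOn g₁).norm).sub (contOn g₂).norm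
    have h2 := h1.isOpen_inter_preimage hΩ (isOpen_Ioi (a := (0:ℝ)))
    convert h2 using 1
    ext z
    simp only [mem_inter_iff, mem_preimage, mem_Ioi, sub_pos]
    rfl
  have hAo : IsOpen A := Metric.isOpen_ball.inter (hlt_open f₁ f₂)
  have hf1y : ‖f₁.toFun y - 1‖ < 1 / 10 := ha1 y (Or.inl hyK₀)
  have hf2y : ‖f₂.toFun y‖ < 1 / 10 := by
    have := ha2 y (Or.inl hyK₀)
    simpa using this
  have hn1y : 9 / 10 < ‖f₁.toFun y‖ := by
    have := norm_sub_norm_le (1 : 𝕜) (f₁.toFun y)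
    rw [norm_one, norm_sub_rev] at this
    linarith
  have hyA : y ∈ A := ⟨Metric.mem_ball_self hη, hyΩ, by linarith⟩
  have hbd : ∀ z ∈ K₀, ‖f₂.toFun z‖ < 1 / 2 * ‖f₁.toFun z‖ → z ∈ A := by
    intro z hz hlt
    refine ⟨?_, hball hz, hlt⟩
    rw [Metric.mem_ball]
    refine lt_of_le_of_ne (Metric.mem_closedBall.1 hz) fun heq => ?_
    have h1 := ha1 z (Or.inl hz)
    have h2 := ha2 z (Or.inl hz)
    rw [dist_eq_norm] at heq
    rw [heq, div_self (by positivity), RCLike.ofReal_one] at h2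
    have h3 : ‖f₁.toFun z‖ < 11 / 10 := by
      have := norm_sub_norm_le (f₁.toFun z) (1 : 𝕜)
      rw [norm_one] at this
      linarith
    have h4 : 9 / 10 < ‖f₂.toFun z‖ := by
      have := norm_sub_norm_le (1 : 𝕜) (f₂.toFun z)
      rw [norm_one, norm_sub_rev] at this
      linarith
    linarith
  -- residue classes
  obtain ⟨r, hr⟩ : ∃ r, ∀ᶠ n in (𝒰 : Filter ℕ), n % m = r := by
    have h1 : IsCompact (Set.univ : Set (Fin m)) := isCompact_univ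
    have h2 : ∀ᶠ n in (𝒰 : Filter ℕ), ∃ r ∈ Finset.range m, n % m = r :=
      Eventually.of_forall fun n => ⟨n % m, Finset.mem_range.2 (Nat.mod_lt _ hm1), rfl⟩
    have h3 : (⋃ r ∈ (Finset.range m : Set ℕ), {n : ℕ | n % m = r}) ∈ 𝒰 := by
      refine mem_of_superset h2 ?_
      rintro n ⟨r, hr, h⟩
      exact mem_biUnion (Finset.mem_coe.2 hr) h
    rw [Ultrafilter.finite_biUnion_mem_iff (Finset.finite_toSet _)] at h3
    obtain ⟨r, _, hr⟩ := h3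
    exact ⟨r, hr⟩
  have hrm : r < m := by
    obtain ⟨n, hn⟩ := hr.exists
    rw [← hn]; exact Nat.mod_lt _ hm1
  have hmod1 : ∀ n : ℕ, T^[n] f₁ = T^[n % m] f₁ := fun n =>
    ((show Function.IsPeriodicPt T m f₁ from hp1).iterate_mod_apply n).symm
  have hmod2 : ∀ n : ℕ, T^[n] f₂ = T^[n % m] f₂ := fun n =>
    ((show Function.IsPeriodicPt T m f₂ from hp2).iterate_mod_apply n).symm
  set F₁ := T^[r] f₁ with hF₁
  set F₂ := T^[r] f₂ with hF₂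
  have hW := W_ne (w := w) hm hw0
  have hF1 : ∀ n, n % m = r → ∀ u ∈ Ω, F₁.toFun u = W w ψ n u * f₁.toFun (ψ^[n] u) := by
    intro n hn u hu
    rw [← iter_apply hw hψ hm n f₁ hu, ← hTdef, hmod1 n, hn]
  have hF2 : ∀ n, n % m = r → ∀ u ∈ Ω, F₂.toFun u = W w ψ n u * f₂.toFun (ψ^[n] u) := by
    intro n hn u hu
    rw [← iter_apply hw hψ hm n f₂ hu, ← hTdef, hmod2 n, hn]
  have hcontx : ∀ g : CInf Ω 𝕜, Tendsto (fun n => g.toFun (xs n)) 𝒰 (𝓝 (g.toFun x)) := fun g =>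
    ((contOn g).continuousAt (hΩ.mem_nhds hxΩ)).tendsto.comp htx
  have hconty : ∀ g : CInf Ω 𝕜, Tendsto (fun n => g.toFun (ψ^[n] (xs n))) 𝒰 (𝓝 (g.toFun y)) :=
    fun g => ((contOn g).continuousAt (hΩ.mem_nhds hyΩ)).tendsto.comp hty
  -- `F₁ x ≠ 0`
  have hid1 : f₁.toFun x * f₁.toFun y = F₁.toFun x * (T^[m - r] f₁).toFun y := by
    refine tendsto_nhds_unique ((hcontx f₁).mul (hconty f₁)) ?_
    refine ((hcontx F₁).mul (hconty (T^[m - r] f₁))).congr' ?_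
    filter_upwards [hr, hx1, hx2] with n hn hn1 hn2
    have e1 := hF1 n hn (xs n) (hKΩ hn1)
    have e2 : T^[n + (m - r)] f₁ = f₁ := by
      rw [hmod1, Nat.add_mod, hn]
      have : (r + (m - r) % m) % m = 0 := by
        rw [Nat.add_mod_mod]
        have : r + (m - r) = m := by omega
        rw [this, Nat.mod_self]
      have h3 : (r + (m - r) % m) % m = 0 := this
      rw [h3]; rfl
    have e3 : f₁.toFun (xs n) = W w ψ (n + (m - r)) (xs n) * f₁.toFun (ψ^[n + (m - r)] (xs n)) := by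
      rw [← iter_apply hw hψ hm _ f₁ (hKΩ hn1), ← hTdef, e2]
    have e4 : ψ^[n + (m - r)] (xs n) = ψ^[m - r] (ψ^[n] (xs n)) := by
      rw [Nat.add_comm, Function.iterate_add_apply]
    rw [W_add, e4, mul_assoc, ← iter_apply hw hψ hm (m - r) f₁ (hKΩ hn2), ← hTdef] at e3
    rw [e1]
    conv_rhs => rw [e3]
    ring
  have hf1x : ‖f₁.toFun x - 1‖ < 1 / 10 := ha1 x (Or.inr rfl)
  have hn1x : 9 / 10 < ‖f₁.toFun x‖ := by
    have := norm_sub_norm_le (1 : 𝕜) (f₁.toFun x)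
    rw [norm_one, norm_sub_rev] at this
    linarith
  have hF1x : F₁.toFun x ≠ 0 := by
    intro h0
    rw [h0, zero_mul] at hid1
    rcases mul_eq_zero.1 hid1 with h | h
    · rw [h, norm_zero] at hn1x; linarith
    · rw [h, norm_zero] at hn1y; linarith
  -- `|F₂ x| < |F₁ x| / 2`
  have hid2 : F₂.toFun x * f₁.toFun y = F₁.toFun x * f₂.toFun y := by
    refine tendsto_nhds_unique ((hcontx F₂).mul (hconty f₁)) ?_
    refine ((hcontx F₁).mul (hconty f₂)).congr' ?_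
    filter_upwards [hr, hx1] with n hn hn1
    rw [hF1 n hn _ (hKΩ hn1), hF2 n hn _ (hKΩ hn1)]
    ring
  have hF2x : ‖F₂.toFun x‖ < 1 / 2 * ‖F₁.toFun x‖ := by
    have h1 : ‖F₂.toFun x‖ * ‖f₁.toFun y‖ = ‖F₁.toFun x‖ * ‖f₂.toFun y‖ := by
      rw [← norm_mul, hid2, norm_mul]
    have h2 : 0 < ‖F₁.toFun x‖ := norm_pos_iff.2 hF1x
    by_contra h3
    push Not at h3
    have h4 : 1 / 2 * ‖F₁.toFun x‖ * (9 / 10) ≤ ‖F₂.toFun x‖ * ‖f₁.toFun y‖ := by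
      gcongr
    have h5 : ‖F₁.toFun x‖ * ‖f₂.toFun y‖ ≤ ‖F₁.toFun x‖ * (1 / 10) := by gcongr
    nlinarith
  -- the ball around `x`
  obtain ⟨δ, hδ, hδG⟩ := Metric.isOpen_iff.1 (hlt_open F₁ F₂) x ⟨hxΩ, hF2x⟩
  set B := Metric.ball x δ with hB
  have hBc : IsPreconnected B := (convex_ball x δ).isPreconnected
  have hBΩ : B ⊆ Ω := fun u hu => (hδG hu).1
  set A₀ := connectedComponentIn A y with hA₀
  have hA₀o : IsOpen A₀ := hAo.connectedComponentIn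
  have hyA₀ : y ∈ A₀ := mem_connectedComponentIn hyA
  have hA₀A : A₀ ⊆ A := connectedComponentIn_subset _ _
  have hA₀p : IsPreconnected A₀ := isPreconnected_connectedComponentIn
  have hAK₀ : A ⊆ K₀ := fun z hz => Metric.ball_subset_closedBall hz.1
  -- connected sets mapped into `A` and meeting `A₀` are mapped into `A₀`
  have hmap : ∀ (n : ℕ) (D : Set (E d)), IsPreconnected D → D ⊆ Ω →
      (∀ u ∈ D, ψ^[n] u ∈ K₀ → ‖f₂.toFun (ψ^[n] u)‖ < 1 / 2 * ‖f₁.toFun (ψ^[n] u)‖) →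
      (∃ u ∈ D, ψ^[n] u ∈ A₀) → ∀ u ∈ D, ψ^[n] u ∈ A₀ := by
    intro n D hD hDΩ hlt hex
    obtain ⟨u₀, hu₀, hu₀A⟩ := hex
    have hcont : ContinuousOn (ψ^[n]) D := ((smooth_iter hψ hm n).continuousOn).mono hDΩ
    have h1 : ∀ u ∈ D, ψ^[n] u ∈ A := all_or_nothing hD hcont hAo Metric.isClosed_closedBall
      (fun u hu h => hbd _ h (hlt u hu h)) hAK₀ ⟨u₀, hu₀, hAK₀ (hA₀A hu₀A)⟩
    have h2 : ψ^[n] '' D ⊆ connectedComponentIn A (ψ^[n] u₀) :=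
      (hD.image _ hcont).subset_connectedComponentIn (mem_image_of_mem _ hu₀) (by
        rintro _ ⟨u, hu, rfl⟩; exact h1 u hu)
    rw [← connectedComponentIn_eq hu₀A] at h2
    exact fun u hu => h2 (mem_image_of_mem _ hu)
  have hret : ∀ᶠ n in (𝒰 : Filter ℕ), n % m = r ∧ ψ^[n] x ∈ A₀ := by
    filter_upwards [hr, htx (Metric.ball_mem_nhds x hδ), hty (hA₀o.mem_nhds hyA₀)] with n hn h1 h2
    refine ⟨hn, hmap n B hBc hBΩ ?_ ⟨xs n, h1, h2⟩ x (Metric.mem_ball_self hδ)⟩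
    intro u hu _
    have h3 := (hδG hu).2
    rw [hF1 n hn u (hBΩ hu), hF2 n hn u (hBΩ hu), norm_mul, norm_mul] at h3
    have h4 : 0 < ‖W w ψ n u‖ := norm_pos_iff.2 (hW n u (hBΩ hu))
    by_contra h5
    push Not at h5
    have h6 := mul_le_mul_of_nonneg_left h5 h4.le
    linarith
  -- two returns
  obtain ⟨n, hn, hnA⟩ := hret.exists
  obtain ⟨n', ⟨hn', hn'A⟩, hlt⟩ := (hret.and (htop (eventually_gt_atTop n))).exists
  set q := n' - n with hq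
  have hqpos : 1 ≤ q := by omega
  have hqm : q % m = 0 := by
    rw [hq]
    exact Nat.sub_mod_eq_zero_of_mod_eq (hn'.trans hn.symm)
  have hqz : ψ^[q] (ψ^[n] x) ∈ A₀ := by
    rw [← Function.iterate_add_apply]
    have : q + n = n' := by omega
    rw [this]; exact hn'A
  have hfq1 : ∀ u ∈ Ω, f₁.toFun u = W w ψ q u * f₁.toFun (ψ^[q] u) := by
    intro u hu
    rw [← iter_apply hw hψ hm q f₁ hu, ← hTdef, hmod1 q, hqm]; rfl
  have hfq2 : ∀ u ∈ Ω, f₂.toFun u = W w ψ q u * f₂.toFun (ψ^[q] u) := by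
    intro u hu
    rw [← iter_apply hw hψ hm q f₂ hu, ← hTdef, hmod2 q, hqm]; rfl
  have hA₀Ω : A₀ ⊆ Ω := fun u hu => (hA₀A hu).2.1
  have hinv : ∀ u ∈ A₀, ψ^[q] u ∈ A₀ := by
    refine hmap q A₀ hA₀p hA₀Ω ?_ ⟨_, hnA, hqz⟩
    intro u hu _
    have h3 := (hA₀A hu).2.2
    rw [hfq1 u (hA₀Ω hu), hfq2 u (hA₀Ω hu), norm_mul, norm_mul] at h3
    have h4 : 0 < ‖W w ψ q u‖ := norm_pos_iff.2 (hW q u (hA₀Ω hu))
    by_contra h5
    push Not at h5
    have h6 := mul_le_mul_of_nonneg_left h5 h4.le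
    linarith
  have hinv' : ∀ t : ℕ, ψ^[q * t] y ∈ A₀ := by
    intro t
    induction t with
    | zero => simpa using hyA₀
    | succ t ih =>
      have : q * (t + 1) = q + q * t := by ring
      rw [this, Function.iterate_add_apply]
      exact hinv _ ih
  obtain ⟨t, ht⟩ := runaway_mul hψ hm hrun hK₀c hball hqpos
  exact Set.disjoint_left.1 ht (mem_image_of_mem _ hyK₀) (hAK₀ (hA₀A (hinv' t)))

end Pool.Agent.Q194.WCO
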