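import Pool.Agent.Q194.WCO.Num
import Pool.Agent.Q194.WCO.Sep
import Pool.Agent.Q194.WCO.Strong

/-!
# A run-away diffeomorphism of `(ℂ ∖ 0) × ℝ × ℝ^n` which is not strongly run-away
-/

set_option autoImplicit false

namespace Pool.Agent.Q194.WCO

open Set Topology Filter
open scoped ContDiff

/-- The model space. -/
abbrev X (n : ℕ) : Type := ℂ × ℝ × (Fin n → ℝ)

/-- Normalisation of a complex number. -/
noncomputable def un (z : ℂ) : ℂ := (‖z‖⁻¹ : ℝ) • z

theorem norm_un {z : ℂ} (hz : z ≠ 0) : ‖un z‖ = 1 := by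
  rw [un, norm_smul, norm_inv, norm_norm, inv_mul_cancel₀ (norm_ne_zero_iff.2 hz)]

theorem un_mul {z μ : ℂ} (hμ : ‖μ‖ = 1) {r : ℝ} (hr : 0 < r) :
    un (z * μ * (r : ℂ)) = μ * un z := by
  unfold un
  rw [norm_mul, norm_mul, hμ, Complex.norm_real, Real.norm_eq_abs, abs_of_pos hr, mul_one,
    mul_inv]
  simp only [Complex.real_smul, Complex.ofReal_mul, Complex.ofReal_inv]
  have : (r : ℂ) ≠ 0 := by exact_mod_cast hr.ne'
  field_simp

/-- The model map. -/
noncomputable def F {n : ℕ} (μ : ℂ) (h : ℂ → ℂ) (p : X n) : X n :=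
  (p.1 * μ * ((Real.exp (h (un p.1)).re : ℝ) : ℂ), p.2.1 + (h (un p.1)).im, p.2.2)

theorem F_ne {n : ℕ} {μ : ℂ} (hμ : ‖μ‖ = 1) (h : ℂ → ℂ) {p : X n} (hp : p.1 ≠ 0) :
    (F μ h p).1 ≠ 0 := by
  have hμ0 : μ ≠ 0 := by
    intro h0; rw [h0, norm_zero] at hμ; exact zero_ne_one hμ
  exact mul_ne_zero (mul_ne_zero hp hμ0) (by exact_mod_cast (Real.exp_pos _).ne')

theorem F_inv {n : ℕ} {μ : ℂ} (hμ : ‖μ‖ = 1) (h : ℂ → ℂ) (p : X n) :
    F μ⁻¹ (fun z => - h (μ⁻¹ * z)) (F μ h p) = p := by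
  have hμ0 : μ ≠ 0 := by
    intro h0; rw [h0, norm_zero] at hμ; exact zero_ne_one hμ
  have e1 : un (F μ h p).1 = μ * un p.1 := un_mul hμ (Real.exp_pos _)
  have e2 : μ⁻¹ * un (F μ h p).1 = un p.1 := by rw [e1, inv_mul_cancel_left₀ hμ0]
  unfold F at e2 ⊢
  simp only at e2 ⊢
  rw [e2]
  refine Prod.ext ?_ (Prod.ext ?_ rfl)
  · simp only [Complex.neg_re]
    have : (Real.exp (h (un p.1)).re : ℂ) * (Real.exp (-(h (un p.1)).re) : ℂ) = 1 := by
      rw [← Complex.ofReal_mul, ← Real.exp_add, add_neg_cancel, Real.exp_zero, Complex.ofReal_one]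
    calc p.1 * μ * (Real.exp (h (un p.1)).re : ℂ) * μ⁻¹ * (Real.exp (-(h (un p.1)).re) : ℂ)
        = p.1 * (μ * μ⁻¹) * ((Real.exp (h (un p.1)).re : ℂ) * (Real.exp (-(h (un p.1)).re) : ℂ)) := by
          ring
      _ = p.1 := by rw [this, mul_inv_cancel₀ hμ0]; ring
  · simp

theorem F_smooth {n : ℕ} (μ : ℂ) {h : ℂ → ℂ} (hh : ContDiffOn ℝ ∞ h (Metric.ball 0 2)) :
    ContDiffOn ℝ ∞ (F (n := n) μ h) {p | p.1 ≠ 0} := by
  intro p hp
  refine ContDiffAt.contDiffWithinAt ?_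
  have hp' : p.1 ≠ 0 := hp
  have h1 : ContDiffAt ℝ ∞ (fun q : X n => q.1) p := contDiffAt_fst
  have h2 : ContDiffAt ℝ ∞ (fun q : X n => un q.1) p :=
    (((contDiffAt_norm ℝ hp').comp p h1).inv (norm_ne_zero_iff.2 hp')).smul h1
  have h3 : ContDiffAt ℝ ∞ (fun q : X n => h (un q.1)) p := by
    refine ContDiffAt.comp p (hh.contDiffAt (Metric.isOpen_ball.mem_nhds ?_)) h2
    rw [Metric.mem_ball, dist_zero_right, norm_un hp']
    norm_num
  have h4 : ContDiffAt ℝ ∞ (fun q : X n => (h (un q.1)).re) p :=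
    Complex.reCLM.contDiff.contDiffAt.comp p h3
  have h5 : ContDiffAt ℝ ∞ (fun q : X n => (h (un q.1)).im) p :=
    Complex.imCLM.contDiff.contDiffAt.comp p h3
  have h6 : ContDiffAt ℝ ∞ (fun q : X n => ((Real.exp (h (un q.1)).re : ℝ) : ℂ)) p :=
    Complex.ofRealCLM.contDiff.contDiffAt.comp p (Real.contDiff_exp.contDiffAt.comp p h4)
  have h7 : ContDiffAt ℝ ∞ (fun q : X n => q.2.1) p := contDiffAt_fst.comp p contDiffAt_snd
  have h8 : ContDiffAt ℝ ∞ (fun q : X n => q.2.2) p := contDiffAt_snd.comp p contDiffAt_snd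
  exact ((h1.mul contDiffAt_const).mul h6).prodMk ((h7.add h5).prodMk h8)

theorem F_iter {n : ℕ} (k : ℕ) (p : X n) :
    (F lam gfun)^[k] p = (p.1 * lam ^ k * ((Real.exp (bs k (un p.1)).re : ℝ) : ℂ),
      p.2.1 + (bs k (un p.1)).im, p.2.2) := by
  induction k with
  | zero => simp [bs]
  | succ k ih =>
    rw [Function.iterate_succ_apply', ih]
    have hμ : ‖lam ^ k‖ = 1 := by rw [norm_pow, norm_lam, one_pow]
    have e1 : un (p.1 * lam ^ k * ((Real.exp (bs k (un p.1)).re : ℝ) : ℂ)) = lam ^ k * un p.1 :=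
      un_mul hμ (Real.exp_pos _)
    have e2 : bs (k + 1) (un p.1) = bs k (un p.1) + gfun (lam ^ k * un p.1) := by
      rw [bs, Finset.sum_range_succ]; rfl
    unfold F
    simp only
    rw [e1, e2, Complex.add_re, Complex.add_im, Real.exp_add]
    refine Prod.ext ?_ (Prod.ext ?_ rfl)
    · push_cast
      ring
    · simp only
      ring

/-- The linear isomorphism between the model space and `ℝ^(n+3)`. -/
noncomputable def ee (n : ℕ) : E (n + 3) ≃L[ℝ] X n :=
  ContinuousLinearEquiv.ofFinrankEq (by simp; omega)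

/-- The domain. -/
noncomputable def Dom (n : ℕ) : Set (E (n + 3)) := {x | (ee n x).1 ≠ 0}

/-- The symbol. -/
noncomputable def psi (n : ℕ) (x : E (n + 3)) : E (n + 3) := (ee n).symm (F lam gfun (ee n x))

theorem Dom_open (n : ℕ) : IsOpen (Dom n) :=
  isOpen_ne_fun (continuous_fst.comp (ee n).continuous) continuous_const

theorem conj_smooth (n : ℕ) (μ : ℂ) {h : ℂ → ℂ} (hh : ContDiffOn ℝ ∞ h (Metric.ball 0 2)) :
    ContDiffOn ℝ ∞ (fun x => (ee n).symm (F μ h (ee n x))) (Dom n) :=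
  (ee n).symm.contDiff.comp_contDiffOn
    ((F_smooth μ hh).comp (ee n).contDiff.contDiffOn fun _ hx => hx)

theorem psi_smooth (n : ℕ) : ContDiffOn ℝ ∞ (psi n) (Dom n) := conj_smooth n lam gfun_smooth

theorem psi_maps (n : ℕ) : MapsTo (psi n) (Dom n) (Dom n) := by
  intro x hx
  change (ee n ((ee n).symm (F lam gfun (ee n x)))).1 ≠ 0
  rw [ContinuousLinearEquiv.apply_symm_apply]
  exact F_ne norm_lam gfun hx

/-- The inverse. -/
noncomputable def chi (n : ℕ) (x : E (n + 3)) : E (n + 3) :=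
  (ee n).symm (F lam⁻¹ (fun z => - gfun (lam⁻¹ * z)) (ee n x))

theorem chi_psi (n : ℕ) (x : E (n + 3)) : chi n (psi n x) = x := by
  unfold chi psi
  rw [ContinuousLinearEquiv.apply_symm_apply, F_inv norm_lam gfun,
    ContinuousLinearEquiv.symm_apply_apply]

theorem chi_smooth (n : ℕ) : ContDiffOn ℝ ∞ (chi n) (Dom n) := by
  refine conj_smooth n lam⁻¹ ?_
  refine (gfun_smooth.comp (contDiff_const.mul contDiff_id).contDiffOn ?_).neg
  intro z hz
  change lam⁻¹ * z ∈ Metric.ball 0 2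
  rw [Metric.mem_ball, dist_zero_right, norm_mul, norm_inv, norm_lam, inv_one, one_mul]
  rw [Metric.mem_ball, dist_zero_right] at hz
  exact hz

theorem psi_inj (n : ℕ) : InjOn (psi n) (Dom n) := fun x _ y _ h => by
  rw [← chi_psi n x, h, chi_psi n y]

theorem psi_equiv (n : ℕ) : ∀ x ∈ Dom n, ∃ A : E (n + 3) ≃L[ℝ] E (n + 3),
    HasFDerivAt (psi n) (A : E (n + 3) →L[ℝ] E (n + 3)) x := by
  intro x hx
  have d1 : DifferentiableAt ℝ (psi n) x :=
    ((psi_smooth n).contDiffAt ((Dom_open n).mem_nhds hx)).differentiableAt (by simp)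
  have d2 : DifferentiableAt ℝ (chi n) (psi n x) :=
    ((chi_smooth n).contDiffAt ((Dom_open n).mem_nhds (psi_maps n hx))).differentiableAt (by simp)
  refine exists_equiv d1 fun v hv => ?_
  have h1 : HasFDerivAt (fun y => chi n (psi n y)) ((fderiv ℝ (chi n) (psi n x)).comp
      (fderiv ℝ (psi n) x)) x := d2.hasFDerivAt.comp x d1.hasFDerivAt
  have h2 : (fun y => chi n (psi n y)) =ᶠ[𝓝 x] fun y => y := by
    exact Eventually.of_forall fun y => chi_psi n y
  have h3 : HasFDerivAt (fun y : E (n + 3) => y) (ContinuousLinearMap.id ℝ (E (n + 3))) x :=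
    hasFDerivAt_id x
  have h4 := (h1.congr_of_eventuallyEq h2.symm).unique h3
  have h5 := congrArg (fun A : E (n + 3) →L[ℝ] E (n + 3) => A v) h4
  simp only [ContinuousLinearMap.comp_apply, hv, map_zero, ContinuousLinearMap.id_apply] at h5
  exact h5.symm

theorem psi_iter (n k : ℕ) (x : E (n + 3)) :
    (psi n)^[k] x = (ee n).symm ((F lam gfun)^[k] (ee n x)) := by
  induction k with
  | zero => simp
  | succ k ih =>
    rw [Function.iterate_succ_apply', Function.iterate_succ_apply', ih, psi,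
      ContinuousLinearEquiv.apply_symm_apply]

theorem psi_runaway (n : ℕ) (K : Set (E (n + 3))) (hK : IsCompact K) (hKD : K ⊆ Dom n) :
    ∃ m : ℕ, Disjoint ((psi n)^[m] '' K) K := by
  have c1 : ContinuousOn (fun x => |Real.log ‖(ee n x).1‖|) K := by
    refine (ContinuousOn.log ?_ fun x hx => norm_ne_zero_iff.2 (hKD hx)).abs
    exact ((continuous_fst.comp (ee n).continuous).norm).continuousOn
  have c2 : ContinuousOn (fun x => |(ee n x).2.1|) K :=
    ((continuous_fst.comp (continuous_snd.comp (ee n).continuous)).abs).continuousOn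
  obtain ⟨R₁, hR₁⟩ := (hK.image_of_continuousOn c1).bddAbove
  obtain ⟨R₂, hR₂⟩ := (hK.image_of_continuousOn c2).bddAbove
  set R := max R₁ R₂ with hR
  have b1 : ∀ x ∈ K, |Real.log ‖(ee n x).1‖| ≤ R := fun x hx =>
    (hR₁ (mem_image_of_mem _ hx)).trans (le_max_left _ _)
  have b2 : ∀ x ∈ K, |(ee n x).2.1| ≤ R := fun x hx =>
    (hR₂ (mem_image_of_mem _ hx)).trans (le_max_right _ _)
  obtain ⟨k, hk⟩ := exists_nat_gt (4 * (4 * R + 1))
  have hlarge : 4 * R < 2 ^ Q k / 4 - 1 := by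
    have h1 : k < Q k := lt_Q k
    have h2 : Q k < 2 ^ Q k := Nat.lt_two_pow_self
    have h3 : (k : ℝ) < 2 ^ Q k := by exact_mod_cast h1.trans h2
    linarith
  refine ⟨8 ^ Q k, Set.disjoint_left.2 ?_⟩
  rintro _ ⟨x, hx, rfl⟩ hx'
  have hx0 : (ee n x).1 ≠ 0 := hKD hx
  have a1 := b1 x hx
  have a2 := b2 x hx
  have a3 := b1 _ hx'
  have a4 := b2 _ hx'
  rw [psi_iter, ContinuousLinearEquiv.apply_symm_apply, F_iter] at a3 a4
  simp only at a3 a4
  set S := bs (8 ^ Q k) (un (ee n x).1) with hS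
  rw [norm_mul, norm_mul, norm_pow, norm_lam, one_pow, mul_one, Complex.norm_real, Real.norm_eq_abs,
    abs_of_pos (Real.exp_pos _), Real.log_mul (norm_ne_zero_iff.2 hx0) (Real.exp_pos _).ne',
    Real.log_exp] at a3
  have a5 := bs_large k (norm_un hx0)
  rw [← hS] at a5
  have a6 := Complex.norm_le_abs_re_add_abs_im S
  rw [abs_le] at a1 a2 a3 a4
  have a7 : |S.re| ≤ 2 * R := by rw [abs_le]; constructor <;> linarith [a1.1, a1.2, a3.1, a3.2]
  have a8 : |S.im| ≤ 2 * R := by rw [abs_le]; constructor <;> linarith [a2.1, a2.2, a4.1, a4.2]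
  linarith

theorem psi_returns (n : ℕ) : ∃ K : Set (E (n + 3)), IsCompact K ∧ K ⊆ Dom n ∧
    ∀ N : ℕ, ∃ m ≥ N, ¬ Disjoint ((psi n)^[m] '' K) K := by
  set K₀ : Set (X n) := (Metric.closedBall (0 : ℂ) (Real.exp 6) ∩ {z | Real.exp (-6) ≤ ‖z‖}) ×ˢ
    (Icc (-6 : ℝ) 6 ×ˢ ({0} : Set (Fin n → ℝ))) with hK₀
  have hc : IsCompact K₀ := by
    refine IsCompact.prod ?_ (isCompact_Icc.prod isCompact_singleton)
    exact (isCompact_closedBall _ _).inter_right (isClosed_le continuous_const continuous_norm)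
  have hmem : ∀ z : ℂ, ∀ s t : ℝ, ‖z‖ = Real.exp s → |s| ≤ 6 → |t| ≤ 6 →
      ((z, t, 0) : X n) ∈ K₀ := by
    intro z s t hz hs ht
    rw [abs_le] at hs ht
    refine ⟨⟨?_, ?_⟩, ht, rfl⟩
    · rw [Metric.mem_closedBall, dist_zero_right, hz]; exact Real.exp_le_exp.2 hs.2
    · change Real.exp (-6) ≤ ‖z‖
      rw [hz]; exact Real.exp_le_exp.2 hs.1
  refine ⟨(ee n).symm '' K₀, hc.image (ee n).symm.continuous, ?_, fun N => ?_⟩
  · rintro _ ⟨p, hp, rfl⟩
    change (ee n ((ee n).symm p)).1 ≠ 0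
    rw [ContinuousLinearEquiv.apply_symm_apply]
    have h1 : Real.exp (-6) ≤ ‖p.1‖ := hp.1.2
    exact norm_ne_zero_iff.1 ((Real.exp_pos _).trans_le h1).ne'
  · refine ⟨Q N, (lt_Q N).le, Set.not_disjoint_iff.2 ?_⟩
    have h1 : ((1, 0, 0) : X n) ∈ K₀ := hmem 1 0 0 (by simp) (by norm_num) (by norm_num)
    refine ⟨_, mem_image_of_mem _ (mem_image_of_mem _ h1), ?_⟩
    rw [psi_iter, ContinuousLinearEquiv.apply_symm_apply, F_iter]
    refine mem_image_of_mem _ ?_
    have hb := bs_bounded N (norm_un (z := 1) one_ne_zero)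
    refine hmem _ (bs (Q N) (un 1)).re _ ?_ ((Complex.abs_re_le_norm _).trans hb) ?_
    · rw [norm_mul, norm_mul, norm_pow, norm_lam, one_pow, norm_one, one_mul, one_mul,
        Complex.norm_real, Real.norm_eq_abs, abs_of_pos (Real.exp_pos _)]
    · simp only [zero_add]
      exact (Complex.abs_im_le_norm _).trans hb

end Pool.Agent.Q194.WCO
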