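import Pool.Agent.Q194.WCO.Nec

/-!
# Gluing, and mixing of weighted composition operators with strongly run-away symbol
-/

set_option autoImplicit false

namespace Pool.Agent.Q194.WCO

open Set Topology Filter
open scoped ContDiff Manifold

variable {d : ℕ} {Ω : Set (E d)} {𝕜 : Type} [RCLike 𝕜]
variable {w : E d → 𝕜} {ψ : E d → E d}

theorem equiv_iter (hm : MapsTo ψ Ω Ω)
    (hdet : ∀ x ∈ Ω, ∃ A : E d ≃L[ℝ] E d, HasFDerivAt ψ (A : E d →L[ℝ] E d) x) (n : ℕ) :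
    ∀ x ∈ Ω, ∃ A : E d ≃L[ℝ] E d, HasFDerivAt (ψ^[n]) (A : E d →L[ℝ] E d) x := by
  induction n with
  | zero =>
    intro x _
    exact ⟨ContinuousLinearEquiv.refl ℝ _, hasFDerivAt_id x⟩
  | succ n ih =>
    intro x hx
    obtain ⟨A, hA⟩ := hdet x hx
    obtain ⟨B, hB⟩ := ih _ (hm hx)
    refine ⟨A.trans B, ?_⟩
    rw [Function.iterate_succ]
    exact hB.comp x hA

/-- Local structure of the inverse of an injective smooth map with invertible derivative. -/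
theorem inv_smooth {Φ : E d → E d} (hΩ : IsOpen Ω) (hΦ : ContDiffOn ℝ ∞ Φ Ω) (hinj : InjOn Φ Ω)
    (hdet : ∀ x ∈ Ω, ∃ A : E d ≃L[ℝ] E d, HasFDerivAt Φ (A : E d →L[ℝ] E d) x) {x : E d}
    (hx : x ∈ Ω) :
    Φ '' Ω ∈ 𝓝 (Φ x) ∧ ContDiffAt ℝ ∞ (Function.invFunOn Φ Ω) (Φ x) := by
  obtain ⟨A, hA⟩ := hdet x hx
  have hc : ContDiffAt ℝ ∞ Φ x := hΦ.contDiffAt (hΩ.mem_nhds hx)
  have hn : (∞ : WithTop ℕ∞) ≠ 0 := by simp
  have hs := hc.hasStrictFDerivAt' hA hn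
  have h1 : ContDiffAt ℝ ∞ (hc.localInverse hA hn) (Φ x) := hc.to_localInverse hA hn
  have h2 : ∀ᶠ p in 𝓝 (Φ x), Φ (hc.localInverse hA hn p) = p := hs.eventually_right_inverse
  have h3 : Tendsto (hc.localInverse hA hn) (𝓝 (Φ x)) (𝓝 x) := hs.localInverse_tendsto
  have h4 : ∀ᶠ p in 𝓝 (Φ x), hc.localInverse hA hn p ∈ Ω := h3 (hΩ.mem_nhds hx)
  constructor
  · filter_upwards [h2, h4] with p hp2 hp4
    exact ⟨_, hp4, hp2⟩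
  · refine h1.congr_of_eventuallyEq ?_
    filter_upwards [h2, h4] with p hp2 hp4
    have : Function.invFunOn Φ Ω (Φ (hc.localInverse hA hn p)) = hc.localInverse hA hn p :=
      hinj.leftInvOn_invFunOn hp4
    rwa [hp2] at this

variable (hw : ContDiffOn ℝ ∞ w Ω) (hψ : ContDiffOn ℝ ∞ ψ Ω) (hm : MapsTo ψ Ω Ω)

/-- **Gluing lemma.** If `ψ^n (L₂)` is disjoint from `L₁` then some `h` agrees with `f` near `L₁`
while `T^n h` agrees with `g` near `L₂`. -/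
theorem glue (hΩ : IsOpen Ω) (hw0 : ∀ x ∈ Ω, w x ≠ 0) (hinj : InjOn ψ Ω)
    (hdet : ∀ x ∈ Ω, ∃ A : E d ≃L[ℝ] E d, HasFDerivAt ψ (A : E d →L[ℝ] E d) x) (n : ℕ)
    {L₁ L₂ : Set (E d)} (hL₁ : IsCompact L₁) (hL₂ : IsCompact L₂) (h₁ : L₁ ⊆ Ω) (h₂ : L₂ ⊆ Ω)
    (hdis : Disjoint (ψ^[n] '' L₂) L₁) (f g : CInf Ω 𝕜) :
    ∃ h : CInf Ω 𝕜, (∃ O, IsOpen O ∧ L₁ ⊆ O ∧ ∀ u ∈ O, h.toFun u = f.toFun u) ∧
      ∃ O, IsOpen O ∧ L₂ ⊆ O ∧ O ⊆ Ω ∧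
        ∀ u ∈ O, ((op w ψ hw hψ hm)^[n] h).toFun u = g.toFun u := by
  set Φ := ψ^[n] with hΦdef
  have hΦ : ContDiffOn ℝ ∞ Φ Ω := smooth_iter hψ hm n
  have hΦinj : InjOn Φ Ω := hinj.iterate hm n
  have hΦdet := equiv_iter hm hdet n
  have hΦm : MapsTo Φ Ω Ω := mapsTo_iter hm n
  have hinv := fun x (hx : x ∈ Ω) => inv_smooth hΩ hΦ hΦinj hΦdet hx
  have hΦo : IsOpen (Φ '' Ω) := by
    rw [isOpen_iff_mem_nhds]
    rintro _ ⟨x, hx, rfl⟩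
    exact (hinv x hx).1
  have hcL₂ : IsCompact (Φ '' L₂) := hL₂.image_of_continuousOn (hΦ.continuousOn.mono h₂)
  obtain ⟨U₂, U₁, hU₂, hU₁, hs₂, hs₁, hUd⟩ := SeparatedNhds.of_isCompact_isCompact hcL₂ hL₁ hdis
  set U := U₂ ∩ Φ '' Ω with hU
  have hUo : IsOpen U := hU₂.inter hΦo
  have hL₂U : Φ '' L₂ ⊆ U := subset_inter hs₂ (image_mono h₂)
  obtain ⟨χ, hχ0, hχ1, _⟩ := exists_contMDiffMap_zero_one_nhds_of_isClosed (𝓘(ℝ, E d)) (n := ⊤)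
    hUo.isClosed_compl hcL₂.isClosed (Set.disjoint_left.2 fun z hz hz' => hz (hL₂U hz'))
  have hχs : ContDiff ℝ ∞ (χ : E d → ℝ) := χ.contMDiff.contDiff
  set inv := Function.invFunOn Φ Ω with hinvdef
  set G : E d → 𝕜 := fun z => (W w ψ n (inv z))⁻¹ * g.toFun (inv z) with hG
  set H : E d → 𝕜 := fun z => f.toFun z + χ z • (G z - f.toFun z) with hH
  have hHs : ContDiffOn ℝ ∞ H Ω := by
    intro z hz
    refine ContDiffAt.contDiffWithinAt ?_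
    have hfz : ContDiffAt ℝ ∞ f.toFun z := f.smooth.contDiffAt (hΩ.mem_nhds hz)
    by_cases hzU : z ∈ U
    · obtain ⟨x, hx, hxz⟩ := hzU.2
      have hi := (hinv x hx).2
      have hix : inv (Φ x) = x := hΦinj.leftInvOn_invFunOn hx
      have hWx : ContDiffAt ℝ ∞ (W w ψ n) (inv (Φ x)) := by
        rw [hix]; exact (smooth_W hw hψ hm n).contDiffAt (hΩ.mem_nhds hx)
      have hgx : ContDiffAt ℝ ∞ g.toFun (inv (Φ x)) := by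
        rw [hix]; exact g.smooth.contDiffAt (hΩ.mem_nhds hx)
      have hne : W w ψ n (inv (Φ x)) ≠ 0 := by rw [hix]; exact W_ne hm hw0 n x hx
      have hGz : ContDiffAt ℝ ∞ G (Φ x) :=
        ((hWx.comp (Φ x) hi).inv hne).mul (hgx.comp (Φ x) hi)
      rw [hxz] at hGz
      exact hfz.add (hχs.contDiffAt.smul (hGz.sub hfz))
    · have h0 : ∀ᶠ x in 𝓝 z, χ x = 0 := hχ0.filter_mono (nhds_le_nhdsSet hzU)
      refine hfz.congr_of_eventuallyEq ?_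
      filter_upwards [h0] with x hx
      simp [hH, hx]
  refine ⟨mk' H hHs, ⟨U₁ ∩ Ω, hU₁.inter hΩ, subset_inter hs₁ h₁, ?_⟩, ?_⟩
  · rintro u ⟨hu1, huΩ⟩
    rw [mk'_apply _ _ huΩ]
    have hnU : u ∈ Uᶜ := fun h => Set.disjoint_left.1 hUd h.1 hu1
    have : χ u = 0 := (hχ0.filter_mono (nhds_le_nhdsSet hnU)).self_of_nhds
    simp [hH, this]
  · obtain ⟨V, hVo, hLV, hV⟩ := eventually_nhdsSet_iff_exists.1 hχ1
    refine ⟨Ω ∩ Φ ⁻¹' V, hΦ.continuousOn.isOpen_inter_preimage hΩ hVo,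
      fun u hu => ⟨h₂ hu, hLV (mem_image_of_mem _ hu)⟩, inter_subset_left, ?_⟩
    rintro u ⟨hu, huV⟩
    have hix : inv (Φ u) = u := hΦinj.leftInvOn_invFunOn hu
    have hne : W w ψ n u ≠ 0 := W_ne hm hw0 n u hu
    rw [iter_apply hw hψ hm n _ hu, mk'_apply _ _ (hΦm hu)]
    have h1 : χ (Φ u) = 1 := hV _ huV
    simp only [hH, h1, one_smul, hG, hix]
    rw [add_sub_cancel, mul_inv_cancel_left₀ hne]

/-- **Theorem.** A weighted composition operator whose weight has no zeros and whose symbol is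
injective, a local diffeomorphism and strongly run-away is mixing. -/
theorem mixing (hΩ : IsOpen Ω) (hw0 : ∀ x ∈ Ω, w x ≠ 0) (hinj : InjOn ψ Ω)
    (hdet : ∀ x ∈ Ω, ∃ A : E d ≃L[ℝ] E d, HasFDerivAt ψ (A : E d →L[ℝ] E d) x)
    (hrun : ∀ K : Set (E d), IsCompact K → K ⊆ Ω → ∃ N : ℕ, ∀ n ≥ N, Disjoint (ψ^[n] '' K) K) :
    IsMixing (op w ψ hw hψ hm) := by
  rintro U V hU ⟨f, hf⟩ hV ⟨g, hg⟩
  obtain ⟨L₁, h₁, c₁, n₁, ε₁, e₁, H₁⟩ := isOpen_iff.1 hU f hf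
  obtain ⟨L₂, h₂, c₂, n₂, ε₂, e₂, H₂⟩ := isOpen_iff.1 hV g hg
  obtain ⟨N, hN⟩ := hrun (L₁ ∪ L₂) (c₁.union c₂) (union_subset h₁ h₂)
  refine ⟨N, fun n hn => ?_⟩
  have hdis : Disjoint (ψ^[n] '' L₂) L₁ :=
    (hN n hn).mono (image_mono subset_union_right) subset_union_left
  obtain ⟨h, ⟨O₁, hO₁, hs₁, he₁⟩, O₂, hO₂, hs₂, _, he₂⟩ :=
    glue hw hψ hm hΩ hw0 hinj hdet n c₁ c₂ h₁ h₂ hdis f g
  exact ⟨_, mem_image_of_mem _ (H₁ h (close_of_eqOn hO₁ hs₁ he₁ n₁ e₁)),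
    H₂ _ (close_of_eqOn hO₂ hs₂ he₂ n₂ e₂)⟩

end Pool.Agent.Q194.WCO
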