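import Pool.Agent.Q194.WCO.Defs

/-!
# Necessary conditions for transitivity and chaos
-/

set_option autoImplicit false

namespace Pool.Agent.Q194.WCO

open Set Topology Filter
open scoped ContDiff RealInnerProductSpace

/-- A transitive map has no nontrivial continuous functional vanishing on its range. -/
theorem no_functional {X : Type} [TopologicalSpace X] {T : X → X} (hT : IsTransitive T)
    (q : X → ℝ) (hq : Continuous q) (h0 : ∀ x, q (T x) = 0) (h1 : ∃ x, q x < 1)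
    (h2 : ∃ x, 1 < q x) : False := by
  obtain ⟨n, y, ⟨x, hx, rfl⟩, hy⟩ := hT {x | q x < 1} {x | 1 < q x}
    (isOpen_lt hq continuous_const) h1 (isOpen_lt continuous_const hq) h2
  cases n with
  | zero =>
    have h3 : q x < 1 := hx
    have h4 : 1 < q x := hy
    linarith
  | succ n =>
    rw [Function.iterate_succ_apply'] at hy
    have h3 := h0 (T^[n] x)
    have h4 : 1 < q (T (T^[n] x)) := hy
    linarith

variable {d : ℕ} {Ω : Set (E d)} {𝕜 : Type} [RCLike 𝕜]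
variable {w : E d → 𝕜} {ψ : E d → E d} (hw : ContDiffOn ℝ ∞ w Ω) (hψ : ContDiffOn ℝ ∞ ψ Ω)
  (hm : MapsTo ψ Ω Ω)

theorem op_apply (f : CInf Ω 𝕜) {x : E d} (hx : x ∈ Ω) :
    (op w ψ hw hψ hm f).toFun x = w x * f.toFun (ψ x) := by
  change Ω.indicator (fun y => w y * f.toFun (ψ y)) x = _
  rw [indicator_of_mem hx]

/-- The weight has no zeros. -/
theorem weight_ne (hT : IsTransitive (op w ψ hw hψ hm)) : ∀ x ∈ Ω, w x ≠ 0 := by
  intro x hx h
  refine no_functional hT (fun f => ‖f.toFun x‖) (continuous_eval hx).norm ?_ ?_ ?_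
  · intro f
    rw [op_apply _ _ _ _ hx, h, zero_mul, norm_zero]
  · refine ⟨mk' (fun _ => 0) contDiffOn_const, ?_⟩
    simp [mk'_apply _ _ hx]
  · refine ⟨mk' (fun _ => 2) contDiffOn_const, ?_⟩
    simp [mk'_apply _ _ hx]

/-- The symbol is injective. -/
theorem symbol_inj (hT : IsTransitive (op w ψ hw hψ hm)) : InjOn ψ Ω := by
  intro x hx y hy hxy
  by_contra hne
  have hwy : 0 < ‖w y‖ := norm_pos_iff.2 (weight_ne hw hψ hm hT y hy)
  have hn : 0 < ‖x - y‖ := norm_pos_iff.2 (sub_ne_zero.2 hne)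
  refine no_functional hT (fun f => ‖f.toFun x * w y - f.toFun y * w x‖)
    (((continuous_eval hx).mul continuous_const).sub
      ((continuous_eval hy).mul continuous_const)).norm ?_ ?_ ?_
  · intro f
    rw [op_apply _ _ _ _ hx, op_apply _ _ _ _ hy, hxy]
    have : w x * f.toFun (ψ y) * w y - w y * f.toFun (ψ y) * w x = 0 := by ring
    rw [this, norm_zero]
  · refine ⟨mk' (fun _ => 0) contDiffOn_const, ?_⟩
    simp [mk'_apply _ _ hx, mk'_apply _ _ hy]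
  · set C : ℝ := 2 / (‖x - y‖ ^ 2 * ‖w y‖) with hC
    have hsm : ContDiff ℝ ∞ fun z : E d => ((C * ‖z - y‖ ^ 2 : ℝ) : 𝕜) := by
      have h1 : ContDiff ℝ ∞ fun z : E d => C * ‖z - y‖ ^ 2 :=
        contDiff_const.mul ((contDiff_id.sub contDiff_const).norm_sq ℝ)
      exact (RCLike.ofRealCLM (K := 𝕜)).contDiff.comp h1
    refine ⟨mk' _ hsm.contDiffOn, ?_⟩
    rw [mk'_apply _ _ hx, mk'_apply _ _ hy]
    have e1 : ((C * ‖y - y‖ ^ 2 : ℝ) : 𝕜) = 0 := by simp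
    rw [e1, zero_mul, sub_zero, norm_mul, RCLike.norm_ofReal, abs_of_pos (by positivity)]
    have e2 : C * ‖x - y‖ ^ 2 * ‖w y‖ = 2 := by rw [hC]; field_simp
    rw [e2]; norm_num

/-- The derivative of the symbol is injective. -/
theorem symbol_deriv_inj (hΩ : IsOpen Ω) (hT : IsTransitive (op w ψ hw hψ hm)) :
    ∀ x ∈ Ω, ∀ v : E d, fderiv ℝ ψ x v = 0 → v = 0 := by
  intro x hx v hv
  by_contra hne
  have hwx : 0 < ‖w x‖ := norm_pos_iff.2 (weight_ne hw hψ hm hT x hx)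
  have hn : 0 < ‖v‖ := norm_pos_iff.2 hne
  have dw : DifferentiableAt ℝ w x := (hw.contDiffAt (hΩ.mem_nhds hx)).differentiableAt (by simp)
  have dψ : DifferentiableAt ℝ ψ x := (hψ.contDiffAt (hΩ.mem_nhds hx)).differentiableAt (by simp)
  refine no_functional hT (fun f => ‖w x * fderiv ℝ f.toFun x v - fderiv ℝ w x v * f.toFun x‖)
    ((continuous_const.mul (continuous_deriv hΩ hx v)).sub
      (continuous_const.mul (continuous_eval hx))).norm ?_ ?_ ?_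
  · intro f
    have h1 : (op w ψ hw hψ hm f).toFun =ᶠ[𝓝 x] fun y => w y * f.toFun (ψ y) := by
      filter_upwards [hΩ.mem_nhds hx] with u hu
      exact op_apply _ _ _ _ hu
    have df : DifferentiableAt ℝ f.toFun (ψ x) := diffAt hΩ f (hm hx)
    have h2 : HasFDerivAt (fun y => f.toFun (ψ y)) ((fderiv ℝ f.toFun (ψ x)).comp (fderiv ℝ ψ x)) x :=
      df.hasFDerivAt.comp x dψ.hasFDerivAt
    have h3 := (dw.hasFDerivAt.mul h2).congr_of_eventuallyEq h1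
    rw [h3.fderiv, op_apply _ _ _ _ hx]
    have h4 : w x * ((w x • (fderiv ℝ f.toFun (ψ x)).comp (fderiv ℝ ψ x) +
        f.toFun (ψ x) • fderiv ℝ w x) v) - fderiv ℝ w x v * (w x * f.toFun (ψ x)) = 0 := by
      simp only [ContinuousLinearMap.add_apply, ContinuousLinearMap.smul_apply,
        ContinuousLinearMap.comp_apply, hv, map_zero, smul_eq_mul]
      ring
    rw [h4, norm_zero]
  · refine ⟨mk' (fun _ => 0) contDiffOn_const, ?_⟩
    have h1 : (mk' (Ω := Ω) (fun _ => (0 : 𝕜)) contDiffOn_const).toFun =ᶠ[𝓝 x] fun _ => 0 := by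
      filter_upwards [hΩ.mem_nhds hx] with u hu
      exact mk'_apply _ _ hu
    simp [mk'_apply _ _ hx, h1.fderiv_eq]
  · set C : ℝ := 2 / (‖w x‖ * ‖v‖ ^ 2) with hC
    have hsm : ContDiff ℝ ∞ fun z : E d => ((C * ⟪v, z - x⟫ : ℝ) : 𝕜) := by
      have h1 : ContDiff ℝ ∞ fun z : E d => C * ⟪v, z - x⟫ :=
        contDiff_const.mul (contDiff_const.inner ℝ (contDiff_id.sub contDiff_const))
      exact (RCLike.ofRealCLM (K := 𝕜)).contDiff.comp h1
    refine ⟨mk' _ hsm.contDiffOn, ?_⟩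
    rw [mk'_apply _ _ hx]
    have e1 : ((C * ⟪v, x - x⟫ : ℝ) : 𝕜) = 0 := by simp
    have h1 : (mk' (Ω := Ω) _ (hsm.contDiffOn (s := Ω))).toFun =ᶠ[𝓝 x]
        fun z : E d => ((C * ⟪v, z - x⟫ : ℝ) : 𝕜) := by
      filter_upwards [hΩ.mem_nhds hx] with u hu
      exact mk'_apply _ _ hu
    have h2 : HasFDerivAt (fun z : E d => C * ⟪v, z - x⟫) (C • (innerSL ℝ v)) x := by
      have h3 : HasFDerivAt (fun z : E d => (innerSL ℝ v) (z - x)) (innerSL ℝ v) x := by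
        exact (innerSL ℝ v).hasFDerivAt.comp x ((hasFDerivAt_id x).sub_const x)
      exact h3.const_mul C
    have h4 : HasFDerivAt (fun z : E d => ((C * ⟪v, z - x⟫ : ℝ) : 𝕜))
        ((RCLike.ofRealCLM (K := 𝕜)).comp (C • (innerSL ℝ v))) x :=
      (RCLike.ofRealCLM (K := 𝕜)).hasFDerivAt.comp x h2
    rw [e1, mul_zero, sub_zero, h1.fderiv_eq, h4.fderiv]
    have e2 : ((RCLike.ofRealCLM (K := 𝕜)).comp (C • (innerSL ℝ v))) v = ((C * ‖v‖ ^ 2 : ℝ) : 𝕜) := by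
      rw [ContinuousLinearMap.comp_apply, RCLike.ofRealCLM_apply, ContinuousLinearMap.smul_apply,
        innerSL_apply_apply, real_inner_self_eq_norm_sq, smul_eq_mul]
    rw [e2, norm_mul, RCLike.norm_ofReal, abs_of_pos (by positivity)]
    have e3 : ‖w x‖ * (C * ‖v‖ ^ 2) = 2 := by rw [hC]; field_simp
    rw [e3]; norm_num

/-- An injective derivative is invertible. -/
theorem exists_equiv {x : E d} (hd : DifferentiableAt ℝ ψ x)
    (h : ∀ v : E d, fderiv ℝ ψ x v = 0 → v = 0) :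
    ∃ A : E d ≃L[ℝ] E d, HasFDerivAt ψ (A : E d →L[ℝ] E d) x := by
  have h1 : LinearMap.ker (fderiv ℝ ψ x : E d →ₗ[ℝ] E d) = ⊥ := by
    rw [LinearMap.ker_eq_bot']
    intro v hv
    exact h v hv
  have h2 : LinearMap.range (fderiv ℝ ψ x : E d →ₗ[ℝ] E d) = ⊤ :=
    LinearMap.ker_eq_bot_iff_range_eq_top.1 h1
  refine ⟨ContinuousLinearEquiv.ofBijective (fderiv ℝ ψ x) h1 h2, ?_⟩
  rw [ContinuousLinearEquiv.coe_ofBijective]
  exact hd.hasFDerivAt

/-- Chaos implies that the symbol is run-away. -/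
theorem runaway (hc : IsChaotic (op w ψ hw hψ hm)) {K : Set (E d)} (hK : IsCompact K)
    (hKΩ : K ⊆ Ω) : ∃ n : ℕ, Disjoint (ψ^[n] '' K) K := by
  set T := op w ψ hw hψ hm with hTdef
  by_contra hcon
  push Not at hcon
  obtain ⟨ht, hper⟩ := hc
  have hN : ∀ (n : ℕ) (c : 𝕜) (r : ℝ),
      IsOpen {f : CInf Ω 𝕜 | ∀ x ∈ K, ‖(T^[n] f).toFun x - c‖ < r} := fun n c r =>
    isOpen_near hw hψ hm n hK hKΩ continuousOn_const r
  have hone : (mk' (Ω := Ω) (fun _ => (1 : 𝕜)) contDiffOn_const) ∈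
      {f : CInf Ω 𝕜 | ∀ x ∈ K, ‖(T^[0] f).toFun x - 1‖ < 1 / 2} := by
    intro x hx
    simp [mk'_apply _ _ (hKΩ hx)]
  have hzero : ∀ n, (mk' (Ω := Ω) (fun _ => (0 : 𝕜)) contDiffOn_const) ∈
      {f : CInf Ω 𝕜 | ∀ x ∈ K, ‖(T^[n] f).toFun x - 0‖ < 1 / 2} := by
    intro n x hx
    rw [hTdef, iter_apply _ _ _ _ _ (hKΩ hx), mk'_apply _ _ (mapsTo_iter hm n (hKΩ hx))]
    simp
  obtain ⟨n0, _, ⟨f0, hf0, rfl⟩, hf0'⟩ := ht _ _ (hN 0 0 (1/2)) ⟨_, hzero 0⟩ (hN 0 1 (1/2)) ⟨_, hone⟩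
  obtain ⟨p, ⟨hp1, hp2⟩, m, hm1, hpm⟩ := hper.inter_open_nonempty _
    ((hN 0 0 (1/2)).inter (hN n0 1 (1/2))) ⟨f0, hf0, hf0'⟩
  have hVk : IsOpen (⋂ j ∈ Finset.range (n0 + m + 1),
      {f : CInf Ω 𝕜 | ∀ x ∈ K, ‖(T^[j] f).toFun x - 0‖ < 1 / 2}) :=
    isOpen_biInter_finset fun j _ => hN j 0 (1/2)
  obtain ⟨N, _, ⟨f, hf, rfl⟩, hf'⟩ := ht _ _ (hN 0 1 (1/2)) ⟨_, hone⟩ hVk
    ⟨_, by simp only [mem_iInter]; exact fun j _ => hzero j⟩
  set t := N / m + 1 with htdef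
  have e1 := Nat.div_add_mod N m
  have e2 := Nat.mod_lt N hm1
  have e3 : m * t = m * (N / m) + m := by rw [htdef]; ring
  obtain ⟨j, hj⟩ : ∃ j, N + j = n0 + m * t := ⟨n0 + m * t - N, by omega⟩
  have hjk : j < n0 + m + 1 := by omega
  have hfj : ∀ x ∈ K, ‖(T^[j] (T^[N] f)).toFun x - 0‖ < 1 / 2 := by
    have := mem_iInter₂.1 hf' j (Finset.mem_range.2 hjk)
    exact this
  rw [← Function.iterate_add_apply, Nat.add_comm j N, hj] at hfj
  have hpn : ∀ x ∈ K, ‖(T^[n0 + m * t] p).toFun x - 1‖ < 1 / 2 := by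
    have h5 : T^[m * t] p = p := (Function.IsPeriodicPt.mul_const (show Function.IsPeriodicPt T m p from hpm) t)
    rw [Function.iterate_add_apply, h5]
    exact hp2
  obtain ⟨_, ⟨x, hx, rfl⟩, hx'⟩ := Set.not_disjoint_iff.1 (hcon (n0 + m * t))
  have a1 := hfj x hx
  have a2 := hpn x hx
  rw [hTdef, iter_apply _ _ _ _ _ (hKΩ hx)] at a1 a2
  have a3 : ‖f.toFun (ψ^[n0 + m * t] x) - 1‖ < 1 / 2 := hf _ hx'
  have a4 : ‖p.toFun (ψ^[n0 + m * t] x) - 0‖ < 1 / 2 := hp1 _ hx'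
  rw [sub_zero] at a1 a4
  rw [norm_mul] at a1
  have a5 : 1 / 2 < ‖f.toFun (ψ^[n0 + m * t] x)‖ := by
    have := norm_sub_norm_le (1 : 𝕜) (f.toFun (ψ^[n0 + m * t] x))
    rw [norm_one, norm_sub_rev] at this
    linarith
  have a6 : 1 / 2 < ‖W w ψ (n0 + m * t) x * p.toFun (ψ^[n0 + m * t] x)‖ := by
    have := norm_sub_norm_le (1 : 𝕜) (W w ψ (n0 + m * t) x * p.toFun (ψ^[n0 + m * t] x))
    rw [norm_one, norm_sub_rev] at this
    linarith
  rw [norm_mul] at a6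
  have a7 : 0 ≤ ‖W w ψ (n0 + m * t) x‖ := norm_nonneg _
  have a8 : 0 ≤ ‖p.toFun (ψ^[n0 + m * t] x)‖ := norm_nonneg _
  nlinarith

include hψ hm in
/-- In a run-away system the multiples of a given number suffice. -/
theorem runaway_mul (hrun : ∀ K : Set (E d), IsCompact K → K ⊆ Ω → ∃ n : ℕ, Disjoint (ψ^[n] '' K) K)
    {K : Set (E d)} (hK : IsCompact K) (hKΩ : K ⊆ Ω) {q : ℕ} (hq : 1 ≤ q) :
    ∃ t : ℕ, Disjoint (ψ^[q * t] '' K) K := by
  have hK' : IsCompact (⋃ j ∈ Finset.range (q + 1), ψ^[j] '' K) :=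
    (Finset.range (q + 1)).isCompact_biUnion fun j _ =>
      hK.image_of_continuousOn (((smooth_iter hψ hm j).continuousOn).mono hKΩ)
  have hsub : (⋃ j ∈ Finset.range (q + 1), ψ^[j] '' K) ⊆ Ω := by
    refine iUnion₂_subset fun j _ => ?_
    rintro _ ⟨u, hu, rfl⟩
    exact mapsTo_iter hm j (hKΩ hu)
  obtain ⟨N, hN⟩ := hrun _ hK' hsub
  have e1 := Nat.div_add_mod N q
  have e2 := Nat.mod_lt N hq
  refine ⟨N / q + 1, ?_⟩
  obtain ⟨j, hj⟩ : ∃ j, N + j = q * (N / q + 1) := ⟨q * (N / q + 1) - N, by rw [mul_add]; omega⟩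
  have hjq : j < q + 1 := by rw [mul_add] at hj; omega
  rw [Set.disjoint_left] at hN ⊢
  rintro _ ⟨x, hx, rfl⟩ hx'
  rw [← hj] at hx'
  refine hN (a := ψ^[N + j] x) ?_ ?_
  · rw [Function.iterate_add_apply]
    exact mem_image_of_mem _ (mem_biUnion (Finset.mem_coe.2 (Finset.mem_range.2 hjq))
      (mem_image_of_mem _ hx))
  · exact mem_biUnion (Finset.mem_coe.2 (Finset.mem_range.2 (Nat.succ_pos q))) ⟨_, hx', rfl⟩

end Pool.Agent.Q194.WCO
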