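import Mathlib

/-!
# A Liouville rotation and an analytic cocycle with large and with bounded Birkhoff sums
-/

set_option autoImplicit false

namespace Pool.Agent.Q194.WCO

open Set Topology Filter Finset
open scoped ContDiff

/-! ## Geometric sums -/

/-- The geometric sum. -/
noncomputable def geo (n : ℕ) (μ : ℂ) : ℂ := ∑ i ∈ range n, μ ^ i

theorem geo_le {μ : ℂ} (h : ‖μ‖ = 1) (n : ℕ) : ‖geo n μ‖ ≤ n := by
  refine (norm_sum_le _ _).trans ?_
  simp [h]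

theorem geo_mul (n : ℕ) (μ : ℂ) : geo n μ * (μ - 1) = μ ^ n - 1 := geom_sum_mul μ n

theorem pow_sub_one_le {μ : ℂ} (h : ‖μ‖ = 1) (n : ℕ) : ‖μ ^ n - 1‖ ≤ n * ‖μ - 1‖ := by
  rw [← geo_mul, norm_mul]
  exact mul_le_mul_of_nonneg_right (geo_le h n) (norm_nonneg _)

theorem geo_ge {μ : ℂ} (h : ‖μ‖ = 1) (n : ℕ) (hn : n * ‖μ - 1‖ ≤ 1 / 2) : (n : ℝ) / 2 ≤ ‖geo n μ‖ := by
  have h1 : ‖geo n μ - n‖ ≤ n * (1 / 2) := by
    have e : geo n μ - n = ∑ i ∈ range n, (μ ^ i - 1) := by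
      simp [geo, Finset.sum_sub_distrib]
    rw [e]
    refine (norm_sum_le _ _).trans ?_
    have : ∀ i ∈ range n, ‖μ ^ i - 1‖ ≤ 1 / 2 := by
      intro i hi
      have hi' : (i : ℝ) ≤ n := by exact_mod_cast (mem_range.1 hi).le
      calc ‖μ ^ i - 1‖ ≤ i * ‖μ - 1‖ := pow_sub_one_le h i
        _ ≤ n * ‖μ - 1‖ := by gcongr
        _ ≤ 1 / 2 := hn
    refine (Finset.sum_le_sum this).trans ?_
    simp
  have h2 : (n : ℝ) ≤ ‖geo n μ‖ + ‖geo n μ - n‖ := by
    have h3 : ‖(n : ℂ)‖ ≤ ‖geo n μ‖ + ‖geo n μ - n‖ := by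
      have := norm_sub_le (geo n μ) (geo n μ - n)
      simpa using this
    simpa using h3
  linarith

theorem geo_le_div {μ : ℂ} {n : ℕ} {a b : ℝ} (ha : ‖μ ^ n - 1‖ ≤ a) (hb : 0 < b)
    (hb' : b ≤ ‖μ - 1‖) : ‖geo n μ‖ ≤ a / b := by
  rw [le_div_iff₀ hb]
  calc ‖geo n μ‖ * b ≤ ‖geo n μ‖ * ‖μ - 1‖ := by gcongr
    _ = ‖μ ^ n - 1‖ := by rw [← norm_mul, geo_mul]
    _ ≤ a := ha

/-! ## The denominators -/

/-- The denominators. -/
def Q : ℕ → ℕ
  | 0 => 1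
  | k + 1 => Q k * (32 * 8 ^ Q k)

theorem Q_succ (k : ℕ) : Q (k + 1) = Q k * (32 * 8 ^ Q k) := rfl

theorem Q_pos (k : ℕ) : 0 < Q k := by
  induction k with
  | zero => exact Nat.one_pos
  | succ k ih => rw [Q_succ]; positivity

theorem Q_dvd {j k : ℕ} (h : j ≤ k) : Q j ∣ Q k := by
  induction k, h using Nat.le_induction with
  | base => exact dvd_rfl
  | succ k _ ih => exact ih.trans ⟨_, Q_succ k⟩

theorem Q_succ_ge (k : ℕ) : 256 * Q k ≤ Q (k + 1) := by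
  have h : 8 ^ 1 ≤ 8 ^ Q k := Nat.pow_le_pow_right (by norm_num) (Q_pos k)
  rw [Q_succ]
  nlinarith [Q_pos k]

theorem Q_ge_two (k i : ℕ) : 2 ^ i * Q k ≤ Q (k + i) := by
  induction i with
  | zero => simp
  | succ i ih =>
    have := Q_succ_ge (k + i)
    rw [← Nat.add_assoc, pow_succ]
    nlinarith

theorem Q_ge_add (k i : ℕ) : Q k + i ≤ Q (k + i) := by
  induction i with
  | zero => simp
  | succ i ih =>
    have h1 := Q_succ_ge (k + i)
    have h2 := Q_pos (k + i)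
    have h3 : Q (k + (i + 1)) = Q (k + i + 1) := rfl
    rw [h3]
    omega

theorem lt_Q (k : ℕ) : k < Q k := by
  have := Q_ge_add 0 k
  rw [Nat.zero_add] at this
  have h1 : Q 0 = 1 := rfl
  omega

/-! ## The rotation number -/

theorem summable_inv (k : ℕ) : Summable fun i => (1 : ℝ) / Q (i + k) := by
  refine Summable.of_nonneg_of_le (fun i => by positivity) (fun i => ?_)
    (summable_geometric_of_lt_one (by norm_num : (0:ℝ) ≤ 1 / 2) (by norm_num))
  have h1 : (2 : ℝ) ^ i ≤ Q (i + k) := by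
    have h2 := Q_ge_two k i
    have h3 := Q_pos k
    have h4 : 2 ^ i ≤ Q (i + k) := by rw [Nat.add_comm i k]; nlinarith
    exact_mod_cast h4
  rw [one_div_pow]
  exact one_div_le_one_div_of_le (by positivity) h1

/-- The rotation number. -/
noncomputable def alpha : ℝ := ∑' j, (1 : ℝ) / Q j

/-- The tails. -/
noncomputable def tail (k : ℕ) : ℝ := Q k * ∑' i, (1 : ℝ) / Q (i + (k + 1))

theorem alpha_mul (k : ℕ) : ∃ m : ℕ, (Q k : ℝ) * alpha = m + tail k := by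
  have h := (summable_inv 0).sum_add_tsum_nat_add (k + 1)
  simp only [Nat.add_zero] at h
  have h2 : ∃ m : ℕ, (Q k : ℝ) * ∑ j ∈ range (k + 1), (1 : ℝ) / Q j = m := by
    refine ⟨∑ j ∈ range (k + 1), Q k / Q j, ?_⟩
    rw [Finset.mul_sum]
    push_cast
    refine Finset.sum_congr rfl fun j hj => ?_
    rw [Nat.cast_div (Q_dvd (Nat.lt_succ_iff.1 (mem_range.1 hj)))
      (by exact_mod_cast (Q_pos j).ne')]
    ring
  obtain ⟨m, hm⟩ := h2
  refine ⟨m, ?_⟩
  rw [alpha, ← h, mul_add, hm, tail]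

theorem tail_ge (k : ℕ) : (Q k : ℝ) / Q (k + 1) ≤ tail k := by
  have h : (1 : ℝ) / Q (0 + (k + 1)) ≤ ∑' i, (1 : ℝ) / Q (i + (k + 1)) :=
    (summable_inv (k + 1)).le_tsum 0 fun i _ => by positivity
  rw [Nat.zero_add] at h
  calc (Q k : ℝ) / Q (k + 1) = Q k * (1 / Q (k + 1)) := by ring
    _ ≤ _ := by unfold tail; gcongr

theorem tail_le (k : ℕ) : tail k ≤ 2 * ((Q k : ℝ) / Q (k + 1)) := by
  have h : ∑' i, (1 : ℝ) / Q (i + (k + 1)) ≤ ∑' i : ℕ, (1 / Q (k + 1)) * (1 / 2 : ℝ) ^ i := by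
    refine (summable_inv (k + 1)).tsum_le_tsum (fun i => ?_)
      ((summable_geometric_of_lt_one (by norm_num : (0:ℝ) ≤ 1 / 2) (by norm_num)).mul_left _)
    have h1 : (Q (k + 1) : ℝ) * 2 ^ i ≤ Q (i + (k + 1)) := by
      have := Q_ge_two (k + 1) i
      rw [Nat.add_comm i (k + 1), mul_comm]
      exact_mod_cast this
    rw [one_div_pow, one_div_mul_one_div]
    have := Q_pos (k + 1)
    exact one_div_le_one_div_of_le (by positivity) h1
  rw [tsum_mul_left, tsum_geometric_two] at h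
  unfold tail
  calc (Q k : ℝ) * ∑' i, (1 : ℝ) / Q (i + (k + 1)) ≤ Q k * (1 / Q (k + 1) * 2) := by gcongr
    _ = _ := by ring

theorem Q_ratio (k : ℕ) : (Q k : ℝ) / Q (k + 1) = 1 / (32 * 8 ^ Q k) := by
  have h := Q_pos k
  rw [Q_succ]
  push_cast
  field_simp

/-- The rotation. -/
noncomputable def lam : ℂ := Complex.exp (Complex.I * ((2 * Real.pi * alpha : ℝ) : ℂ))

theorem norm_lam : ‖lam‖ = 1 := by
  rw [lam, mul_comm, Complex.norm_exp_ofReal_mul_I]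

theorem lam_pow (k : ℕ) : lam ^ Q k = Complex.exp (Complex.I * ((2 * Real.pi * tail k : ℝ) : ℂ)) := by
  obtain ⟨m, hm⟩ := alpha_mul k
  rw [lam, ← Complex.exp_nat_mul, Complex.exp_eq_exp_iff_exists_int]
  refine ⟨m, ?_⟩
  have h : ((Q k : ℂ) * (alpha : ℂ)) = m + (tail k : ℂ) := by exact_mod_cast congrArg (fun x : ℝ => (x : ℂ)) hm
  push_cast
  linear_combination (2 * Real.pi * Complex.I : ℂ) * h

theorem lam_pow_le (k : ℕ) : ‖lam ^ Q k - 1‖ ≤ 1 / (2 * 8 ^ Q k) := by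
  rw [lam_pow]
  refine (Real.norm_exp_I_mul_ofReal_sub_one_le).trans ?_
  have h1 := tail_le k
  have h2 := tail_ge k
  rw [Q_ratio] at h1 h2
  have h3 : 0 < 1 / (32 * (8:ℝ) ^ Q k) := by positivity
  rw [Real.norm_eq_abs, abs_of_nonneg (mul_nonneg Real.two_pi_pos.le (h3.le.trans h2))]
  have h4 := Real.pi_lt_d2
  have h5 := Real.pi_pos
  have h6 : 0 ≤ tail k := h3.le.trans h2
  calc 2 * Real.pi * tail k ≤ 2 * 3.15 * (2 * (1 / (32 * 8 ^ Q k))) := by gcongr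
    _ ≤ 1 / (2 * 8 ^ Q k) := by
      rw [div_mul_eq_div_div, div_mul_eq_div_div]
      have : (0:ℝ) < 8 ^ Q k := by positivity
      rw [show (2 * 3.15 * (2 * (1 / 32 / (8:ℝ) ^ Q k))) = (2 * 3.15 * (2 * (1 / 32))) / (8:ℝ) ^ Q k by ring]
      gcongr
      norm_num

theorem lam_pow_ge (k : ℕ) : 1 / (8 * 8 ^ Q k) ≤ ‖lam ^ Q k - 1‖ := by
  rw [lam_pow, Complex.norm_exp_I_mul_ofReal_sub_one]
  have h1 := tail_le k
  have h2 := tail_ge k
  rw [Q_ratio] at h1 h2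
  have h3 : 0 < 1 / (32 * (8:ℝ) ^ Q k) := by positivity
  have h8 : (1:ℝ) ≤ 8 ^ Q k := one_le_pow₀ (by norm_num)
  have h9 : 1 / (32 * (8:ℝ) ^ Q k) ≤ 1 / 32 := by
    apply one_div_le_one_div_of_le (by norm_num); linarith
  have hpi := Real.pi_pos
  have e : 2 * Real.pi * tail k / 2 = Real.pi * tail k := by ring
  have h0 : 0 ≤ Real.pi * tail k := mul_nonneg hpi.le (h3.le.trans h2)
  have h4 : Real.pi * tail k ≤ Real.pi / 2 := by
    have : tail k ≤ 1 / 2 := by linarith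
    nlinarith
  rw [e]
  have h5 := Real.mul_le_sin h0 h4
  have h6 : 2 / Real.pi * (Real.pi * tail k) = 2 * tail k := by field_simp
  rw [h6] at h5
  rw [Real.norm_eq_abs, abs_mul, abs_of_pos (by norm_num : (0:ℝ) < 2)]
  have h7 : 4 * tail k ≤ 2 * |Real.sin (Real.pi * tail k)| := by
    have := le_abs_self (Real.sin (Real.pi * tail k))
    linarith
  refine le_trans ?_ h7
  have : 1 / (8 * (8:ℝ) ^ Q k) = 4 * (1 / (32 * 8 ^ Q k)) := by
    have : (0:ℝ) < 8 ^ Q k := by positivity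
    field_simp
    norm_num
  rw [this]
  linarith

/-! ## The cocycle -/

/-- The coefficients. -/
noncomputable def cf (j : ℕ) : ℝ := (1 / 4) ^ Q j

theorem cf_pos (j : ℕ) : 0 < cf j := by unfold cf; positivity

theorem cf_le (k i : ℕ) : cf (i + k) ≤ (1 / 4) ^ Q k * (1 / 4) ^ i := by
  rw [← pow_add]
  refine pow_le_pow_of_le_one (by norm_num) (by norm_num) ?_
  rw [Nat.add_comm i k]
  exact Q_ge_add k i

theorem cf_summable (k : ℕ) : Summable fun i => cf (i + k) :=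
  Summable.of_nonneg_of_le (fun i => (cf_pos _).le) (cf_le k)
    ((summable_geometric_of_lt_one (by norm_num : (0:ℝ) ≤ 1 / 4) (by norm_num)).mul_left _)

theorem cf_tsum_le (k : ℕ) : ∑' i, cf (i + k) ≤ 2 * (1 / 4) ^ Q k := by
  refine ((cf_summable k).tsum_le_tsum (cf_le k)
    ((summable_geometric_of_lt_one (by norm_num : (0:ℝ) ≤ 1 / 4) (by norm_num)).mul_left _)).trans ?_
  rw [tsum_mul_left, tsum_geometric_of_lt_one (by norm_num) (by norm_num), mul_comm]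
  gcongr
  norm_num

/-- The analytic function defining the cocycle. -/
noncomputable def gfun (z : ℂ) : ℂ := ∑' j, (cf j : ℂ) * z ^ Q j

theorem gfun_diff : DifferentiableOn ℂ gfun (Metric.ball 0 2) := by
  refine Complex.differentiableOn_tsum_of_summable_norm (u := fun j => (1 / 2 : ℝ) ^ j)
    (summable_geometric_of_lt_one (by norm_num) (by norm_num))
    (fun j => ((differentiable_id.pow _).const_mul _).differentiableOn) Metric.isOpen_ball ?_
  intro j z hz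
  have hz' : ‖z‖ ≤ 2 := by
    rw [Metric.mem_ball, dist_zero_right] at hz; exact hz.le
  rw [norm_mul, norm_pow, Complex.norm_real, Real.norm_eq_abs, abs_of_pos (cf_pos j), cf]
  calc (1 / 4 : ℝ) ^ Q j * ‖z‖ ^ Q j ≤ (1 / 4) ^ Q j * 2 ^ Q j := by gcongr
    _ = (1 / 2) ^ Q j := by rw [← mul_pow]; norm_num
    _ ≤ (1 / 2) ^ j := pow_le_pow_of_le_one (by norm_num) (by norm_num) (lt_Q j).le

theorem gfun_smooth : ContDiffOn ℝ ∞ gfun (Metric.ball 0 2) :=
  (gfun_diff.contDiffOn Metric.isOpen_ball).restrict_scalars ℝ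

/-- The Birkhoff sums. -/
noncomputable def bs (n : ℕ) (z : ℂ) : ℂ := ∑ i ∈ range n, gfun (lam ^ i * z)

/-- The summands of the Birkhoff sums. -/
noncomputable def tm (n : ℕ) (z : ℂ) (j : ℕ) : ℂ := (cf j : ℂ) * z ^ Q j * geo n (lam ^ Q j)

theorem norm_lam_pow (j : ℕ) : ‖lam ^ Q j‖ = 1 := by rw [norm_pow, norm_lam, one_pow]

theorem norm_tm {z : ℂ} (hz : ‖z‖ = 1) (n j : ℕ) : ‖tm n z j‖ = cf j * ‖geo n (lam ^ Q j)‖ := by
  rw [tm, norm_mul, norm_mul, norm_pow, hz, one_pow, mul_one, Complex.norm_real, Real.norm_eq_abs,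
    abs_of_pos (cf_pos j)]

theorem norm_tm_le {z : ℂ} (hz : ‖z‖ = 1) (n j : ℕ) : ‖tm n z j‖ ≤ cf j * n := by
  rw [norm_tm hz]
  exact mul_le_mul_of_nonneg_left (geo_le (norm_lam_pow j) n) (cf_pos j).le

theorem summable_tm {z : ℂ} (hz : ‖z‖ = 1) (n : ℕ) : Summable (tm n z) :=
  Summable.of_norm_bounded (((cf_summable 0).mul_right (n : ℝ)) :) (norm_tm_le hz n)

theorem bs_eq {z : ℂ} (hz : ‖z‖ = 1) (n : ℕ) : bs n z = ∑' j, tm n z j := by
  unfold bs gfun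
  rw [← Summable.tsum_finsetSum]
  · refine tsum_congr fun j => ?_
    rw [tm, geo, Finset.mul_sum]
    refine Finset.sum_congr rfl fun i _ => ?_
    rw [mul_pow, ← pow_mul, ← pow_mul, mul_comm i (Q j)]
    ring
  · intro i _
    refine Summable.of_norm_bounded (cf_summable 0) fun j => ?_
    rw [norm_mul, norm_pow, norm_mul, norm_pow, norm_lam, hz, Complex.norm_real, Real.norm_eq_abs,
      abs_of_pos (cf_pos j)]
    simp

theorem tail_tm {z : ℂ} (hz : ‖z‖ = 1) (n k : ℕ) :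
    ‖∑' i, tm n z (i + k)‖ ≤ 2 * (1 / 4) ^ Q k * n := by
  have h1 : Summable fun i => cf (i + k) * (n : ℝ) := (cf_summable k).mul_right _
  refine (tsum_of_norm_bounded h1.hasSum fun i => norm_tm_le hz n (i + k)).trans ?_
  rw [tsum_mul_right]
  exact mul_le_mul_of_nonneg_right (cf_tsum_le k) (Nat.cast_nonneg n)

theorem sum_two (k : ℕ) : ∑ j ∈ range k, 16 * (2 : ℝ) ^ Q j ≤ 2 ^ Q k / 8 := by
  induction k with
  | zero =>
    rw [Finset.sum_range_zero]
    positivity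
  | succ k ih =>
    rw [Finset.sum_range_succ]
    have h1 : (2 : ℝ) ^ (Q k + 8) ≤ 2 ^ Q (k + 1) := by
      refine pow_le_pow_right₀ (by norm_num) ?_
      have := Q_succ_ge k
      have := Q_pos k
      omega
    rw [pow_add] at h1
    have h2 : (0:ℝ) < 2 ^ Q k := by positivity
    linarith

/-- At the times `8 ^ Q k` the Birkhoff sums are large. -/
theorem bs_large (k : ℕ) {z : ℂ} (hz : ‖z‖ = 1) : (2 : ℝ) ^ Q k / 4 - 1 ≤ ‖bs (8 ^ Q k) z‖ := by
  set n := 8 ^ Q k with hn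
  have h0 := (summable_tm hz n).sum_add_tsum_nat_add (k + 1)
  rw [bs_eq hz, ← h0, Finset.sum_range_succ]
  -- the terms before `k`
  have h1 : ‖∑ j ∈ range k, tm n z j‖ ≤ 2 ^ Q k / 8 := by
    refine (norm_sum_le _ _).trans (le_trans (Finset.sum_le_sum fun j _ => ?_) (sum_two k))
    rw [norm_tm hz]
    have e1 : ‖geo n (lam ^ Q j)‖ ≤ 2 / (1 / (8 * 8 ^ Q j)) := by
      refine geo_le_div ?_ (by positivity) (lam_pow_ge j)
      refine (norm_sub_le _ _).trans ?_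
      rw [norm_pow, norm_lam_pow, one_pow, norm_one]
      norm_num
    calc cf j * ‖geo n (lam ^ Q j)‖ ≤ (1 / 4) ^ Q j * (2 / (1 / (8 * 8 ^ Q j))) := by
          rw [cf]; gcongr
      _ = 16 * ((1 / 4) ^ Q j * 8 ^ Q j) := by
          rw [div_div_eq_mul_div]; ring
      _ = 16 * 2 ^ Q j := by rw [← mul_pow]; norm_num
  -- the terms after `k`
  have h2 : ‖∑' i, tm n z (i + (k + 1))‖ ≤ 1 := by
    refine (tail_tm hz n (k + 1)).trans ?_
    have e1 : (1 / 4 : ℝ) ^ Q (k + 1) ≤ (1 / 16) ^ Q k := by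
      have : (1 / 16 : ℝ) ^ Q k = (1 / 4) ^ (2 * Q k) := by rw [pow_mul]; norm_num
      rw [this]
      refine pow_le_pow_of_le_one (by norm_num) (by norm_num) ?_
      have := Q_succ_ge k
      omega
    have e2 : ((n : ℕ) : ℝ) = 8 ^ Q k := by rw [hn]; push_cast; rfl
    rw [e2]
    calc 2 * (1 / 4 : ℝ) ^ Q (k + 1) * 8 ^ Q k ≤ 2 * (1 / 16) ^ Q k * 8 ^ Q k := by gcongr
      _ = 2 * (1 / 2) ^ Q k := by rw [mul_assoc, ← mul_pow]; norm_num
      _ ≤ 2 * (1 / 2) ^ 1 := by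
          gcongr 2 * ?_
          exact pow_le_pow_of_le_one (by norm_num) (by norm_num) (Q_pos k)
      _ = 1 := by norm_num
  -- the main term
  have h3 : (2 : ℝ) ^ Q k / 2 ≤ ‖tm n z k‖ := by
    rw [norm_tm hz]
    have e2 : ((n : ℕ) : ℝ) = 8 ^ Q k := by rw [hn]; push_cast; rfl
    have e1 := geo_ge (norm_lam_pow k) n (by
      rw [e2]
      calc (8:ℝ) ^ Q k * ‖lam ^ Q k - 1‖ ≤ 8 ^ Q k * (1 / (2 * 8 ^ Q k)) := by
            gcongr; exact lam_pow_le k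
        _ = 1 / 2 := by
          have : (0:ℝ) < 8 ^ Q k := by positivity
          field_simp)
    rw [e2] at e1
    calc (2 : ℝ) ^ Q k / 2 = (1 / 4) ^ Q k * (8 ^ Q k / 2) := by
          rw [mul_div_assoc', ← mul_pow]; norm_num
      _ ≤ cf k * ‖geo n (lam ^ Q k)‖ := by rw [cf]; gcongr
  have h4 : ‖tm n z k‖ ≤ ‖∑ j ∈ range k, tm n z j + tm n z k + ∑' i, tm n z (i + (k + 1))‖ +
      ‖∑ j ∈ range k, tm n z j‖ + ‖∑' i, tm n z (i + (k + 1))‖ := by
    have e : tm n z k = (∑ j ∈ range k, tm n z j + tm n z k + ∑' i, tm n z (i + (k + 1))) -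
        (∑ j ∈ range k, tm n z j) - ∑' i, tm n z (i + (k + 1)) := by ring
    calc ‖tm n z k‖ = ‖(∑ j ∈ range k, tm n z j + tm n z k + ∑' i, tm n z (i + (k + 1))) -
        (∑ j ∈ range k, tm n z j) - ∑' i, tm n z (i + (k + 1))‖ := by rw [← e]
      _ ≤ _ := (norm_sub_le _ _).trans (by gcongr; exact norm_sub_le _ _)
  have h5 : (0:ℝ) < 2 ^ Q k := by positivity
  linarith

/-- At the times `Q k` the Birkhoff sums are bounded. -/
theorem bs_bounded (k : ℕ) {z : ℂ} (hz : ‖z‖ = 1) : ‖bs (Q k) z‖ ≤ 6 := by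
  set n := Q k with hn
  have h0 := (summable_tm hz n).sum_add_tsum_nat_add k
  rw [bs_eq hz, ← h0]
  have hk : (k : ℝ) ≤ 2 ^ Q k := by
    have h1 : k < Q k := lt_Q k
    have h2 : Q k < 2 ^ Q k := Nat.lt_two_pow_self
    have h3 : k ≤ 2 ^ Q k := by omega
    exact_mod_cast h3
  have hq : ∀ j, (Q j : ℝ) ≤ 2 ^ Q j := fun j => by
    have h2 : Q j < 2 ^ Q j := Nat.lt_two_pow_self
    exact_mod_cast h2.le
  have h1 : ‖∑ j ∈ range k, tm n z j‖ ≤ 4 := by
    have e0 : ∀ j ∈ range k, ‖tm n z j‖ ≤ 4 * (1 / 2) ^ Q k := by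
      intro j hj
      have hjk : Q j ≤ Q k := Nat.le_of_dvd (Q_pos k) (Q_dvd (mem_range.1 hj).le)
      rw [norm_tm hz]
      have e1 : ‖geo n (lam ^ Q j)‖ ≤ (Q j * (1 / (2 * 8 ^ Q k))) / (1 / (8 * 8 ^ Q j)) := by
        refine geo_le_div ?_ (by positivity) (lam_pow_ge j)
        rw [← pow_mul, mul_comm (Q j) n, pow_mul]
        refine (pow_sub_one_le (norm_lam_pow k) (Q j)).trans ?_
        gcongr
        exact lam_pow_le k
      have p1 : (0:ℝ) < 8 ^ Q k := by positivity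
      have p2 : (0:ℝ) < 8 ^ Q j := by positivity
      calc cf j * ‖geo n (lam ^ Q j)‖
          ≤ (1 / 4) ^ Q j * ((Q j * (1 / (2 * 8 ^ Q k))) / (1 / (8 * 8 ^ Q j))) := by
            rw [cf]; gcongr
        _ ≤ (1 / 4) ^ Q j * ((2 ^ Q j * (1 / (2 * 8 ^ Q k))) / (1 / (8 * 8 ^ Q j))) := by
            gcongr
            exact hq j
        _ = 4 * (((1 / 4) ^ Q j * 2 ^ Q j * 8 ^ Q j) * (1 / 8 ^ Q k)) := by
            field_simp
            norm_num
        _ = 4 * (4 ^ Q j * (1 / 8) ^ Q k) := by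
            rw [← mul_pow, ← mul_pow, one_div_pow]; norm_num
        _ ≤ 4 * (4 ^ Q k * (1 / 8) ^ Q k) := by
            gcongr
            norm_num
        _ = 4 * (1 / 2) ^ Q k := by rw [← mul_pow]; norm_num
    refine (norm_sum_le _ _).trans ((Finset.sum_le_sum e0).trans ?_)
    rw [Finset.sum_const, card_range, nsmul_eq_mul]
    calc (k : ℝ) * (4 * (1 / 2) ^ Q k) ≤ 2 ^ Q k * (4 * (1 / 2) ^ Q k) := by gcongr
      _ = 4 * (2 * (1 / 2)) ^ Q k := by rw [mul_pow]; ring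
      _ = 4 := by norm_num
  have h2 : ‖∑' i, tm n z (i + k)‖ ≤ 2 := by
    refine (tail_tm hz n k).trans ?_
    calc 2 * (1 / 4 : ℝ) ^ Q k * (n : ℝ) ≤ 2 * (1 / 4 : ℝ) ^ Q k * 2 ^ Q k := by
          gcongr
          exact hq k
      _ = 2 * (1 / 2) ^ Q k := by rw [mul_assoc, ← mul_pow]; norm_num
      _ ≤ 2 * 1 := by
          gcongr
          exact pow_le_one₀ (by norm_num) (by norm_num)
      _ = 2 := by norm_num
  calc _ ≤ ‖∑ j ∈ range k, tm n z j‖ + ‖∑' i, tm n z (i + k)‖ := norm_add_le _ _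
    _ ≤ 6 := by linarith

end Pool.Agent.Q194.WCO
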